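import Pool.Agent.N132.IXS.Defs

/-!
# Cycle class maps to finer cohomology theories and their kernels
-/

open CategoryTheory AlgebraicGeometry Module Filter Topology
open scoped ENNReal

universe u v w x

namespace Pool.Agent.V7H5.AJ

open Pool.Agent.H914 Pool.Agent.H914.VarClass Pool.Agent.H914.VarClass.Obj Pool.Agent.W492.BB
  Pool.Agent.Y133.Half Pool.Agent.N132.IXS

section Alg

variable {K : Type*} [Field K] {A : Type*} [Ring A] [Algebra K A] {B : Type*} [Ring B]
  [Algebra K B]

/-- The dimension of the kernel, a natural number or infinity. -/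
noncomputable def kerDim (f : A →ₐ[K] B) : ℕ∞ :=
  Cardinal.toENat (Module.rank K (LinearMap.ker f.toLinearMap))

/-- The operator `φ` acts as `(-1)^i` on the `i`-th graded piece, for all `i`. -/
def ActsBySign (gr : ℕ → Submodule K A) (φ : A →ₗ[K] A) : Prop :=
  ∀ (i : ℕ) (a : A), a ∈ gr i → φ a = (-1 : K) ^ i • a

end Alg

variable {k : Type u} [Field k] {𝒱 : VarClass k} {K : Type v} [Field K]

/-- A cycle class map: rings `D(X)` with pull-backs and push-forwards (`K`-algebra homomorphisms
and `K`-linear maps), and `K`-algebra homomorphisms `cl : A(X) → D(X)` commuting with pull-backs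
and push-forwards.

The main example: `K = ℚ`, `D(X)` is the Deligne cohomology `⊕ H_D^(2i)(X_ℂ, ℚ(i))`. As `J^i(X_ℂ)`
is the kernel of the map from `H_D^(2i)(X_ℂ, ℤ(i))` to the Hodge classes, the kernel of `cl` in
codimension `i` is the kernel of the Abel-Jacobi map `CH^i(X)^0 → J^i(X_ℂ)`, up to torsion. -/
structure CycleMap (C : ChowTheory.{u, v, w} 𝒱 K) where
  /-- the theory `D` -/
  D : TheoryData.{u, x, v} 𝒱 K
  /-- the cycle class map -/
  cl : ∀ X, C.A X →ₐ[K] D.A X
  commutes : ∀ {X Y : 𝒱.Obj} (f : X ⟶ Y),
    Commutes (C.pull f) (D.pull f) (C.push f) (D.push f) (cl X) (cl Y)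

namespace CycleMap

variable {C : ChowTheory.{u, v, w} 𝒱 K} (T : CycleMap.{u, v, w, x} C)

/-- The ratio of the dimension of the kernel of the cycle class map of `X` to the dimension of the
space of cycles modulo numerical equivalence. -/
noncomputable def ratio (X : 𝒱.Obj) : ℝ≥0∞ := kerDim (T.cl X) / C.numRank X

/-- `Composite T X j n y`: the class `y` on the power `X^(n+1)` is obtained from a class in the
kernel of the cycle class map of some power of `X` by applying successively `j` numerically
trivial correspondences between powers of `X`. -/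
inductive Composite (X : 𝒱.Obj) : ℕ → ∀ n, C.A (pw X n) → Prop
  | zero (n : ℕ) (y : C.A (pw X n)) (hy : T.cl _ y = 0) : Composite X 0 n y
  | succ (j m n : ℕ) (Γ : C.A ((pw X m).prod (pw X n))) (hΓ : ChowTheory.NumTriv Γ)
      (y : C.A (pw X m)) (hy : Composite X j m y) : Composite X (j + 1) n (C.act Γ y)

/-- The cycle class maps of all powers of `X` are injective. -/
def IsInjective (X : 𝒱.Obj) : Prop := ∀ n, ∀ x : C.A (pw X n), T.cl _ x = 0 → x = 0

/-- The kernels of the cycle class maps of the powers of `X` are finite-dimensional, and the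
classes obtained from classes in the kernels by applying successively `d` numerically trivial
correspondences between powers of `X` vanish. -/
def IsBounded (X : 𝒱.Obj) (d : ℕ) : Prop :=
  (∀ n, kerDim (T.cl (pw X n)) ≠ ⊤) ∧ ∀ n y, T.Composite X d n y → y = 0

end CycleMap

section Tame

variable {ops : CycleOps 𝒱} {W : WeilCohomology.{u, v} ops} (C : CycleTheory.{u, v, w} W)

/-- The sign conjecture for `X`: some algebraic correspondence acts as `(-1)^i` on `H^i(X)`, for
all `i`. -/
def Sign (X : 𝒱.Obj) : Prop :=
  ∃ z : C.A (X.prod X), ActsBySign (W.gr X) (W.corr (C.cl _ z))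

/-- Homological and numerical equivalence agree on all powers of `X`. -/
def HomNum (X : 𝒱.Obj) : Prop :=
  ∀ n, ∀ x : C.A (pw X n), ChowTheory.NumTriv x → C.cl _ x = 0

end Tame

end Pool.Agent.V7H5.AJ
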