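import Pool.Agent.V7H5.AJ.Gr
import Pool.Agent.N132.IX.Final

/-!
# Nilpotency from the sign conjecture, or from the equality of the equivalence relations
-/

open CategoryTheory AlgebraicGeometry

universe u v w

namespace Pool.Agent.V7H5.AJ

open Module
open Pool.Agent.H914 Pool.Agent.H914.VarClass Pool.Agent.H914.VarClass.Obj
  Pool.Agent.H914.WeilCohomology Pool.Agent.Y133.Half Pool.Agent.N132.IX

variable {k : Type u} [Field k] {𝒱 : VarClass k} {ops : CycleOps 𝒱}
  {W : WeilCohomology.{u, v} ops} {X Y Z P Q V : 𝒱.Obj} {S : Sys W}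

lemma op_ext {F G : Module.End W.K (W.H (X.prod Z))}
    (h : ∀ i j, ∀ a ∈ W.gr X i, ∀ b ∈ W.gr Z j,
      F (W.map (fst X Z) a * W.map (snd X Z) b) = G (W.map (fst X Z) a * W.map (snd X Z) b)) :
    F = G := by
  apply LinearMap.ext
  intro x
  refine W.kunneth_induction (p := fun x => F x = G x) ?_ ?_ x
  · intro a b ha hb
    rw [map_add, map_add, ha, hb]
  · exact h

lemma par_prod : par (W.isInternal (X.prod Z)) =
    extOp W (par (W.isInternal X)) (par (W.isInternal Z)) := by
  apply op_ext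
  intro i j a ha b hb
  rw [par, scal_apply _ _ (W.mul_mem (W.map_mem _ ha) (W.map_mem _ hb)), extOp_tmul, par, par,
    scal_apply _ _ ha, scal_apply _ _ hb,
    map_smul, map_smul, smul_mul_assoc, mul_smul_comm, smul_smul, pow_add]

lemma par_pw (h : par (W.isInternal X) ∈ S.Op X X) (n : ℕ) :
    par (W.isInternal (pw X n)) ∈ S.Op (pw X n) (pw X n) := by
  induction n with
  | zero => exact h
  | succ n ih =>
    change par (W.isInternal ((pw X n).prod X)) ∈ S.Op ((pw X n).prod X) ((pw X n).prod X)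
    rw [par_prod]
    exact Sys.Op.ext ih h

lemma pow_mem_Op {x : Module.End W.K (W.H P)} (hx : x ∈ S.Op P P) (r : ℕ) :
    x ^ r ∈ S.Op P P := by
  induction r with
  | zero => rw [pow_zero]; exact Sys.Op.id
  | succ r ih => rw [pow_succ]; exact Sys.Op.comp ih hx

lemma nilpotent_of_par (h : par (W.isInternal P) ∈ S.Op P P) {x : Module.End W.K (W.H P)}
    (hx : x ∈ S.NOp P P) : IsNilpotent x := by
  apply isNilpotent_of_trace_pow
  intro r
  have h1 : (x ^ (r + 1) : Module.End W.K (W.H P)) ∈ S.NOp P P := by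
    rw [pow_succ]
    exact Sys.NOp.comp_left (pow_mem_Op (Sys.NOp.op hx) r) hx
  generalize (x ^ (r + 1) : Module.End W.K (W.H P)) = y at h1
  have h2 := Sys.NOp.trace h1 h
  have h3 : par (W.isInternal P) ∘ₗ y ∘ₗ par (W.isInternal P) =
      par (W.isInternal P) * (y * par (W.isInternal P)) := rfl
  rw [h3, LinearMap.trace_mul_comm, mul_assoc, par_mul_par, mul_one] at h2
  exact h2

/-- The sign conjecture. -/
lemma nilNum_of_par (h : par (W.isInternal X) ∈ S.Op X X) : NilNum S X :=
  fun n _ hx => nilpotent_of_par (par_pw h n) hx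

/-- Homological and numerical equivalence agree. -/
lemma nilNum_of_num (h : ∀ n, S.Num (pw X n) = ⊥) : NilNum S X := by
  intro n x hx
  obtain ⟨c, hc, rfl⟩ := Sys.mem_NOp.1 hx
  have h5 := Sys.Num.map (pwAdd X n n).inv hc
  rw [h, Submodule.mem_bot] at h5
  have h6 : c = 0 := map_inj_of_iso (pwAdd X n n).symm (h5.trans (map_zero _).symm)
  rw [h6, corr_zero]
  exact IsNilpotent.zero

end Pool.Agent.V7H5.AJ
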