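import Pool.Agent.V7H5.AJ.Step
import Pool.Agent.N132.IX.Chain

/-!
# Filtration by composites of numerically trivial correspondences, lower bounds
-/

open CategoryTheory AlgebraicGeometry

universe u v w

namespace Pool.Agent.V7H5.AJ

open Module Filter Topology
open Pool.Agent.H914 Pool.Agent.H914.VarClass Pool.Agent.H914.VarClass.Obj
  Pool.Agent.H914.WeilCohomology Pool.Agent.W492.BB Pool.Agent.W550.Corr Pool.Agent.Y133.Half
open Pool.Agent.N316.IX Pool.Agent.N132.IX

variable {k : Type u} [Field k] {𝒱 : VarClass k} {ops : CycleOps 𝒱}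
  {W : WeilCohomology.{u, v} ops} {X Y Z P Q V : 𝒱.Obj}

section comp

variable (C : CycleTheory.{u, v, w} W)

/-- `Cmp C X G j n y`: the class `y` on the power `X^(n+1)` is obtained from a class in the family
`G` by applying successively `j` numerically trivial correspondences between powers of `X`. -/
inductive Cmp (X : 𝒱.Obj) (G : ∀ n, Submodule W.K (C.A (pw X n))) :
    ℕ → ∀ n, C.A (pw X n) → Prop
  | zero (n : ℕ) (y : C.A (pw X n)) (hy : y ∈ G n) : Cmp X G 0 n y
  | succ (j m n : ℕ) (Γ : C.A ((pw X m).prod (pw X n))) (hΓ : CycleTheory.NumTriv Γ)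
      (y : C.A (pw X m)) (hy : Cmp X G j m y) : Cmp X G (j + 1) n (C.act Γ y)

/-- The filtration by composites. -/
noncomputable def filG (X : 𝒱.Obj) (G : ∀ n, Submodule W.K (C.A (pw X n))) (j n : ℕ) :
    Submodule W.K (C.A (pw X n)) :=
  Submodule.span W.K {y | Cmp C X G j n y}

/-- The numerically trivial multiples of a class. -/
noncomputable def nmul {X : 𝒱.Obj} {m : ℕ} (y : C.A (pw X m))
    (n : ℕ) : Submodule W.K (C.A (pw X n)) :=
  (C.num ((pw X m).prod (pw X n))).map
    ((actB C.toTheoryData (X := pw X m) (Y := pw X n)).flip y)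

end comp

variable {C : CycleTheory.{u, v, w} W}

lemma mem_nmul {m n : ℕ} {y : C.A (pw X m)} {x : C.A (pw X n)} :
    x ∈ nmul C y n ↔ ∃ Γ : C.A ((pw X m).prod (pw X n)), CycleTheory.NumTriv Γ ∧ C.act Γ y = x :=
  Iff.rfl

lemma numTriv_comp_right (Γ : C.A (P.prod Q)) {Δ : C.A (Q.prod Z)}
    (h : CycleTheory.NumTriv Δ) : CycleTheory.NumTriv (C.comp Γ Δ) :=
  numTriv_push _ (numTriv_mul (numTriv_pull _ h) _)

lemma stab_nmul {m : ℕ} (y : C.A (pw X m)) : Stab C X (nmul C y) := by
  rintro l n Δ _ ⟨Γ, hΓ, rfl⟩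
  exact ⟨C.comp Γ Δ, numTriv_comp hΓ Δ, TheoryData.act_comp _ _ _ _⟩

lemma nmul_le {m : ℕ} (y : C.A (pw X m)) (n : ℕ) : nmul C y n ≤ cyc C y n := by
  rintro _ ⟨Γ, hΓ, rfl⟩
  exact ⟨Γ, rfl⟩

section fil

variable {G : ∀ n, Submodule W.K (C.A (pw X n))}

lemma stab_filG (hG : Stab C X G) (j : ℕ) : Stab C X (filG C X G j) := by
  intro m n Γ y hy
  refine Submodule.span_induction (p := fun y _ => C.act Γ y ∈ filG C X G j n) ?_ ?_ ?_ ?_ hy
  · intro y hy'
    cases hy' with
    | zero _ _ h => exact Submodule.subset_span (.zero _ _ (hG _ _ _ _ h))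
    | succ j l m Δ hΔ z hz =>
      rw [← TheoryData.act_comp]
      exact Submodule.subset_span (.succ _ _ _ _ (numTriv_comp hΔ Γ) _ hz)
  · rw [TheoryData.act_map_zero]; exact Submodule.zero_mem _
  · intro a b _ _ ha hb
    rw [act_map_add]; exact Submodule.add_mem _ ha hb
  · intro c a _ ha
    rw [act_map_smul]; exact Submodule.smul_mem _ _ ha

lemma act_filG {j m n : ℕ} {Γ : C.A ((pw X m).prod (pw X n))} (hΓ : CycleTheory.NumTriv Γ)
    {y : C.A (pw X m)} (hy : y ∈ filG C X G j m) : C.act Γ y ∈ filG C X G (j + 1) n := by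
  refine Submodule.span_induction (p := fun y _ => C.act Γ y ∈ filG C X G (j + 1) n)
    ?_ ?_ ?_ ?_ hy
  · intro y hy
    exact Submodule.subset_span (.succ _ _ _ _ hΓ _ hy)
  · rw [TheoryData.act_map_zero]; exact Submodule.zero_mem _
  · intro a b _ _ ha hb
    rw [act_map_add]; exact Submodule.add_mem _ ha hb
  · intro c a _ ha
    rw [act_map_smul]; exact Submodule.smul_mem _ _ ha

lemma cmp_pred (hG : Stab C X G) {j n : ℕ} {y : C.A (pw X n)} (h : Cmp C X G (j + 1) n y) :
    Cmp C X G j n y := by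
  induction j generalizing n with
  | zero =>
    cases h with
    | succ _ m _ Γ hΓ y hy =>
      cases hy with
      | zero _ _ h => exact .zero _ _ (hG _ _ _ _ h)
  | succ j ih =>
    cases h with
    | succ _ m _ Γ hΓ y hy => exact .succ _ _ _ _ hΓ _ (ih hy)

lemma filG_succ_le (hG : Stab C X G) (j n : ℕ) : filG C X G (j + 1) n ≤ filG C X G j n :=
  Submodule.span_mono fun _ h => cmp_pred hG h

lemma filG_zero (n : ℕ) : filG C X G 0 n = G n := by
  apply le_antisymm
  · rw [filG, Submodule.span_le]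
    intro y hy
    cases hy with
    | zero _ _ h => exact h
  · exact fun y hy => Submodule.subset_span (.zero _ _ hy)

lemma filG_antitone (hG : Stab C X G) {i j : ℕ} (h : i ≤ j) (n : ℕ) :
    filG C X G j n ≤ filG C X G i n := by
  induction j, h using Nat.le_induction with
  | base => exact le_rfl
  | succ j _ ih => exact (filG_succ_le hG j n).trans ih

lemma filG_le (hG : Stab C X G) (j n : ℕ) : filG C X G j n ≤ G n := by
  have := filG_antitone hG (Nat.zero_le j) n
  rwa [filG_zero] at this

lemma filG_stationary {j : ℕ} (h : filG C X G (j + 1) = filG C X G j) :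
    filG C X G (j + 1 + 1) = filG C X G (j + 1) := by
  funext n
  apply le_antisymm
  · rw [filG, Submodule.span_le]
    intro x hx
    cases hx with
    | succ _ m _ Γ hΓ y hy =>
      have h1 : y ∈ filG C X G (j + 1) m := Submodule.subset_span hy
      rw [h] at h1
      exact act_filG hΓ h1
  · rw [filG, Submodule.span_le]
    intro x hx
    cases hx with
    | succ _ m _ Γ hΓ y hy =>
      apply act_filG hΓ
      rw [h]
      exact Submodule.subset_span hy

end fil

/-- No nonzero class of the family is fixed by a numerically trivial correspondence. -/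
def NoFixN (C : CycleTheory.{u, v, w} W) (X : 𝒱.Obj)
    (G : ∀ n, Submodule W.K (C.A (pw X n))) : Prop :=
  ∀ (m : ℕ) (Γ : C.A ((pw X m).prod (pw X m))) (y : C.A (pw X m)), CycleTheory.NumTriv Γ →
    y ∈ G m → C.act Γ y = y → y = 0

section chain

variable {G : ∀ n, Submodule W.K (C.A (pw X n))} {M : AddSubmonoid ℝ}

lemma cyc_le (hG : Stab C X G) {m : ℕ} {y : C.A (pw X m)} (hy : y ∈ G m) (n : ℕ) :
    cyc C y n ≤ G n := by
  rintro _ ⟨Γ, rfl⟩
  exact hG m n Γ y hy

/-- One step of the chain. -/
lemma cyc_step (hfin : ∀ n, Module.Finite W.K (G n)) (hpos : ∀ n, 0 < C.S.a (pw X n))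
    (hgr : HasLim C.S X M) (hG : Stab C X G)
    (hf : NoFixN C X G) {m : ℕ} {y : C.A (pw X m)} (hyG : y ∈ G m) (hy : y ≠ 0) {ε : ℝ}
    (hε : 0 < ε) : ∀ᶠ n in atTop, (1 - ε) * C.S.a (pw X n) + finrank W.K (nmul C y n) ≤
      finrank W.K (cyc C y n) := by
  have hfc : ∀ n, Module.Finite W.K (cyc C y n) := fun n => by
    have := hfin n
    exact Submodule.finiteDimensional_of_le (cyc_le hG hyG n)
  obtain ⟨g, hg, hgg, hg0, U, -, -, hU, hdim⟩ := step C X hfc (stab_nmul y)
    (stab_cyc y) (nmul_le y) (by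
      rintro l n Γ hΓ _ ⟨Δ, rfl⟩
      exact ⟨C.comp Δ Γ, numTriv_comp_right Δ hΓ, TheoryData.act_comp _ _ _ _⟩)
    (m := m) (y := y) ⟨dg C.toTheoryData _, act_dg _ _⟩ (by
      rintro ⟨Γ, hΓ, h⟩
      exact hy (hf m Γ y hΓ hyG h))
  obtain ⟨D, -, h1, h2⟩ := hgr m g hg hgg
  replace h2 := h2.resolve_left hg0
  filter_upwards [h1.eventually (lt_mem_nhds (show 1 - ε < _ by linarith))] with n hn
  have hp : (0 : ℝ) < C.S.a (pw X n) := by exact_mod_cast hpos n
  rw [lt_div_iff₀ hp] at hn
  have := hfc n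
  have h3 := Submodule.finrank_mono (hU n)
  have h4 : (finrank W.K (nmul C y n) : ℝ) + C.S.r (pw X m) g (pw X n) ≤
      finrank W.K (cyc C y n) := by
    rw [hdim n] at h3
    exact_mod_cast h3
  linarith

lemma cmp_mem (hG : Stab C X G) {d m : ℕ} {y : C.A (pw X m)} (h : Cmp C X G d m y) : y ∈ G m := by
  induction h with
  | zero m y hy => exact hy
  | succ j l m Γ hΓ y hy ih => exact hG _ _ _ _ ih

lemma chain_aux (hfin : ∀ n, Module.Finite W.K (G n)) (hpos : ∀ n, 0 < C.S.a (pw X n))
    (hgr : HasLim C.S X M) (hG : Stab C X G)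
    (hf : NoFixN C X G) {d m : ℕ} {y : C.A (pw X m)}
    (h : Cmp C X G d m y) : y ≠ 0 → ∀ ε : ℝ, 0 < ε → ∀ᶠ n in atTop,
      ((d : ℝ) - ε) * C.S.a (pw X n) + finrank W.K (cyc C y n) ≤
        finrank W.K (G n) := by
  induction h with
  | zero m y hyG =>
    intro _ ε hε
    refine Eventually.of_forall fun n => ?_
    have := hfin n
    have h1 : (finrank W.K (cyc C y n) : ℝ) ≤ finrank W.K (G n) := by
      exact_mod_cast Submodule.finrank_mono (cyc_le hG hyG n)
    have h2 : (0 : ℝ) ≤ C.S.a (pw X n) := Nat.cast_nonneg _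
    push_cast
    nlinarith
  | succ j l m Γ hΓ y hy ih =>
    intro hy0 ε hε
    have hy1 : y ≠ 0 := by
      rintro rfl
      exact hy0 (TheoryData.act_map_zero _ _)
    have hε2 : 0 < ε / 2 := by positivity
    have hyG := cmp_mem hG hy
    filter_upwards [ih hy1 (ε / 2) hε2, cyc_step hfin hpos hgr hG hf hyG hy1 hε2] with n h1 h2
    have h3 : cyc C (C.act Γ y) n ≤ nmul C y n := by
      rintro _ ⟨Δ, rfl⟩
      exact ⟨C.comp Γ Δ, numTriv_comp hΓ Δ, TheoryData.act_comp _ _ _ _⟩
    have := hfin n
    have h5 : Module.Finite W.K (nmul C y n) :=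
      Submodule.finiteDimensional_of_le ((nmul_le y n).trans (cyc_le hG hyG n))
    have h4 : (finrank W.K (cyc C (C.act Γ y) n) : ℝ) ≤ finrank W.K (nmul C y n) := by
      exact_mod_cast Submodule.finrank_mono h3
    push_cast
    linarith

/-- **Lower bound.** A nonzero class obtained by `d` numerically trivial correspondences. -/
lemma chain_lower (hfin : ∀ n, Module.Finite W.K (G n)) (hpos : ∀ n, 0 < C.S.a (pw X n))
    (hgr : HasLim C.S X M) (hG : Stab C X G) (hf : NoFixN C X G) {d m : ℕ} {y : C.A (pw X m)}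
    (h : Cmp C X G d m y) (hy : y ≠ 0) {ε : ℝ} (hε : 0 < ε) : ∀ᶠ n in atTop,
      ((d : ℝ) + 1 - ε) * C.S.a (pw X n) ≤ finrank W.K (G n) := by
  have hε2 : 0 < ε / 2 := by positivity
  filter_upwards [chain_aux hfin hpos hgr hG hf h hy (ε / 2) hε2,
    cyc_step hfin hpos hgr hG hf (cmp_mem hG h) hy hε2] with n h1 h2
  have h3 : (0 : ℝ) ≤ finrank W.K (nmul C y n) := Nat.cast_nonneg _
  linarith

/-- **The alternative for finite-dimensional families without fixed classes.** -/
theorem alt_fin (hfin : ∀ n, Module.Finite W.K (G n)) (hpos : ∀ n, 0 < C.S.a (pw X n))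
    (hgr : HasLim C.S X M) (hG : Stab C X G) (hf : NoFixN C X G) :
    (∀ N : ℕ, ∀ᶠ n in atTop, N * C.S.a (pw X n) ≤ finrank W.K (G n)) ∨
      ∃ N ∈ M, Tendsto (fun n => (finrank W.K (G n) : ℝ) / C.S.a (pw X n)) atTop (𝓝 N) ∧
        (1 ≤ N ∨ (∀ n, G n = ⊥)) ∧ ∀ d : ℕ, N < d + 1 → ∀ n, filG C X G d n = ⊥ := by
  by_cases hd : ∃ d, ∀ n, filG C X G d n = ⊥
  · obtain ⟨d, hd⟩ := hd
    have hfinF : ∀ j n, Module.Finite W.K (filG C X G j n) := fun j n => by
      have := hfin n
      exact Submodule.finiteDimensional_of_le (filG_le hG j n)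
    have key : ∀ j, (∃ N ∈ M, RLim C X (filG C X G (j + 1)) (filG C X G j) N ∧
        (filG C X G (j + 1) = filG C X G j ∨ 1 ≤ N)) ∨
        ∀ N : ℕ, ∀ᶠ n in atTop, N * C.S.a (pw X n) + finrank W.K (filG C X G (j + 1) n) ≤
          finrank W.K (filG C X G j n) := fun j =>
      iterate_rel (hfinF j) hpos hgr (stab_filG hG (j + 1)) (stab_filG hG j) (filG_succ_le hG j)
        (fun m n Γ hΓ y hy => act_filG hΓ hy)
    by_cases hall : ∀ j, ∃ N ∈ M, RLim C X (filG C X G (j + 1)) (filG C X G j) N ∧
        (filG C X G (j + 1) = filG C X G j ∨ 1 ≤ N)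
    · right
      choose c hcM hc hc0 using hall
      have hcn : ∀ j, 0 ≤ c j := by
        intro j
        refine ge_of_tendsto' (hc j) fun n => ?_
        have h1 : (finrank W.K (filG C X G (j + 1) n) : ℝ) ≤ finrank W.K (filG C X G j n) := by
          have := hfinF j n
          exact_mod_cast Submodule.finrank_mono (filG_succ_le hG j n)
        exact div_nonneg (by linarith) (Nat.cast_nonneg _)
      have h1 : ∀ e : ℕ, Tendsto (fun n => ((finrank W.K (filG C X G 0 n) : ℝ) -
          finrank W.K (filG C X G e n)) / C.S.a (pw X n)) atTop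
            (𝓝 (∑ j ∈ Finset.range e, c j)) := by
        intro e
        induction e with
        | zero =>
          refine tendsto_const_nhds.congr fun n => ?_
          simp
        | succ e ih =>
          rw [Finset.sum_range_succ]
          refine (ih.add (hc e)).congr fun n => ?_
          rw [← add_div]
          congr 1
          ring
      have hL : Tendsto (fun n => (finrank W.K (G n) : ℝ) / C.S.a (pw X n)) atTop
          (𝓝 (∑ j ∈ Finset.range d, c j)) := by
        refine (h1 d).congr fun n => ?_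
        rw [hd n, finrank_bot, filG_zero, Nat.cast_zero, sub_zero]
      refine ⟨∑ j ∈ Finset.range d, c j, M.sum_mem fun j _ => hcM j, hL, ?_, fun e he n => ?_⟩
      · by_cases hone : ∃ j ∈ Finset.range d, 1 ≤ c j
        · obtain ⟨j, hj, hj1⟩ := hone
          exact Or.inl (hj1.trans (Finset.single_le_sum (fun i _ => hcn i) hj))
        · right
          push Not at hone
          have h2 : ∀ j ≤ d, filG C X G j = filG C X G 0 := by
            intro j
            induction j with
            | zero => intro _; rfl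
            | succ j ih =>
              intro hj
              rw [(hc0 j).resolve_right (not_le.2 (hone j (Finset.mem_range.2 (by omega)))),
                ih (by omega)]
          intro n
          have h3 := congrFun (h2 d le_rfl) n
          rw [hd n, filG_zero] at h3
          exact h3.symm
      · rw [filG, Submodule.span_eq_bot]
        intro y hy
        by_contra hy0
        set L := ∑ j ∈ Finset.range d, c j with hLdef
        have h2 := chain_lower hfin hpos hgr hG hf hy hy0 (ε := ((e : ℝ) + 1 - L) / 2)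
          (by linarith)
        have h3 : ∀ᶠ q in atTop, (finrank W.K (G q) : ℝ) / C.S.a (pw X q) <
            L + ((e : ℝ) + 1 - L) / 2 :=
          hL.eventually (gt_mem_nhds (by linarith))
        obtain ⟨q, hq1, hq2⟩ := (h2.and h3).exists
        have hp : (0 : ℝ) < C.S.a (pw X q) := by exact_mod_cast hpos q
        rw [div_lt_iff₀ hp] at hq2
        nlinarith
    · left
      push Not at hall
      obtain ⟨j, hj⟩ := hall
      have h2 := (key j).resolve_left (by
        rintro ⟨N, hNM, h1, h2⟩
        obtain ⟨h3, h4⟩ := hj N hNM h1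
        rcases h2 with h2 | h2
        · exact h3 h2
        · exact absurd h2 (not_le.2 h4))
      intro N
      filter_upwards [h2 N] with n hn
      have := hfin n
      have h4 := Submodule.finrank_mono (filG_le hG j n)
      omega
  · left
    push Not at hd
    intro N
    obtain ⟨n, hn⟩ := hd N
    obtain ⟨y, hy, hy0⟩ : ∃ y, Cmp C X G N n y ∧ y ≠ 0 := by
      by_contra hcon
      push Not at hcon
      apply hn
      rw [filG, Submodule.span_eq_bot]
      exact fun y hy => hcon y hy
    filter_upwards [chain_lower hfin hpos hgr hG hf hy hy0 one_pos] with q hq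
    have h3 : ((N : ℝ) + 1 - 1) = N := by ring
    rw [h3] at hq
    exact_mod_cast hq

end chain

end Pool.Agent.V7H5.AJ
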