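import Pool.Agent.N132.IX.StmDefs
import Pool.Agent.Y133.Half.Main2

/-!
# Full growth from nilpotency of the numerically trivial correspondences
-/

open CategoryTheory AlgebraicGeometry

universe u v w

namespace Pool.Agent.V7H5.AJ

open Module
open Pool.Agent.H914 Pool.Agent.H914.VarClass Pool.Agent.H914.VarClass.Obj
  Pool.Agent.H914.WeilCohomology Pool.Agent.Y133.Half

/-- An element of a semisimple algebra of operators all of whose left multiples are nilpotent is
zero. -/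
lemma eq_zero_of_nil {K M : Type*} [Field K] [AddCommGroup M] [Module K M]
    (A : Subalgebra K (Module.End K M)) [IsSemisimpleRing A] {z : Module.End K M} (hz : z ∈ A)
    (h : ∀ a ∈ A, IsNilpotent (a * z)) : z = 0 := by
  have h1 : (⟨z, hz⟩ : A) ∈ Ring.jacobson A := by
    rw [← Ideal.jacobson_bot, Ideal.mem_jacobson_iff]
    intro y
    have h0 : IsNilpotent (y * (⟨z, hz⟩ : A)) := by
      obtain ⟨n, hn⟩ := h y y.2
      refine ⟨n, Subtype.ext ?_⟩
      rw [SubmonoidClass.coe_pow]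
      exact hn
    obtain ⟨u, hu⟩ := h0.isUnit_one_add
    refine ⟨(u⁻¹ : Aˣ), ?_⟩
    rw [Ideal.mem_bot]
    have h2 : (↑(u⁻¹ : Aˣ) : A) * (1 + y * ⟨z, hz⟩) = 1 := by rw [← hu]; simp
    rw [mul_assoc]
    rw [mul_add, mul_one] at h2
    rw [add_comm, h2, sub_self]
  rw [IsSemisimpleRing.jacobson_eq_bot] at h1
  exact congrArg Subtype.val ((Submodule.mem_bot _).1 h1)

variable {k : Type u} [Field k] {𝒱 : VarClass k} {ops : CycleOps 𝒱}
  {W : WeilCohomology.{u, v} ops} {X Y Z P Q V : 𝒱.Obj}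

/-- All numerically trivial operators on the cohomology of the powers of `X` are nilpotent. -/
def NilNum (S : Sys W) (X : 𝒱.Obj) : Prop :=
  ∀ n : ℕ, ∀ x ∈ S.NOp (pw X n) (pw X n), IsNilpotent x

variable (S : Sys W)

lemma span_rho_finrank_le (n : ℕ) (h : NilNum S X) :
    finrank W.K (Submodule.span W.K (Set.range (rho W X n))) ≤ S.al X n := by
  set P := pw X n with hP
  set L := corrL W P P with hL
  have hinj : Function.Injective L := by
    rw [← LinearMap.ker_eq_bot, LinearMap.ker_eq_bot']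
    intro c hc
    exact corr_inj hc
  set R : Submodule W.K (W.H (P.prod P)) :=
    (Submodule.span W.K (Set.range (rho W X n))).comap L with hR
  have hle : Submodule.span W.K (Set.range (rho W X n)) ≤ S.Op P P := S.span_rho_le X n
  have hRC : R ≤ S.C (P.prod P) := by
    intro c hc
    obtain ⟨c', hc', h1⟩ := Sys.mem_Op.1 (hle hc)
    have h2 : c' = c := hinj h1
    rw [← h2]
    exact hc'
  have hmap : R.map L = Submodule.span W.K (Set.range (rho W X n)) := by
    rw [hR, Submodule.map_comap_eq, inf_eq_right]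
    intro x hx
    obtain ⟨c', hc', h1⟩ := Sys.mem_Op.1 (hle hx)
    exact ⟨c', h1⟩
  have hfin : finrank W.K (Submodule.span W.K (Set.range (rho W X n))) = finrank W.K R := by
    rw [← hmap]
    exact (Submodule.equivMapOfInjective _ hinj _).finrank_eq.symm
  have hdisj : R ⊓ S.Num (P.prod P) = ⊥ := by
    rw [eq_bot_iff]
    rintro c ⟨hc, hc'⟩
    rw [Submodule.mem_bot]
    have hz : L c ∈ repAlg (rho W X n) := by
      have h1 : Submodule.span W.K (Set.range (rho W X n)) ≤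
          Subalgebra.toSubmodule (repAlg (rho W X n)) := by
        rw [Submodule.span_le]
        rintro _ ⟨σ, rfl⟩
        exact rep_mem _ σ
      exact h1 hc
    have h2 : L c = 0 := by
      refine eq_zero_of_nil (repAlg (rho W X n)) hz fun a ha => h n _ ?_
      exact Sys.NOp.comp_left (hle (repAlg_le _ ha)) (Sys.NOp.corr hc')
    exact hinj (h2.trans (map_zero _).symm)
  have h1 := Submodule.finrank_sup_add_finrank_inf_eq R (S.Num (P.prod P))
  rw [hdisj, finrank_bot, add_zero] at h1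
  have h2 : finrank W.K ((R ⊔ S.Num (P.prod P) : Submodule W.K (W.H (P.prod P)))) ≤
      finrank W.K (S.C (P.prod P)) :=
    Submodule.finrank_mono (sup_le hRC fun _ hx => hx.1)
  have h3 := S.a_add_num (P.prod P)
  have h4 : S.al X n = S.a (P.prod P) := rfl
  omega

lemma al_ge (n : ℕ) (h : NilNum S X) :
    finrank W.K (W.H X) ^ (2 * (n + 1)) ≤ S.al X n * (n + 2) ^ (finrank W.K (W.H X) ^ 2) := by
  classical
  obtain ⟨e, he⟩ := exists_hbasis W X
  have h1 := span_perm (wb e n) (rho W X n) (tau_wb e he n)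
  rw [finrank_pw, ← pow_mul, Fintype.card_fin] at h1
  calc finrank W.K (W.H X) ^ (2 * (n + 1)) = finrank W.K (W.H X) ^ ((n + 1) * 2) := by
        rw [mul_comm]
    _ ≤ _ := h1
    _ ≤ _ := Nat.mul_le_mul_right _ (span_rho_finrank_le S n h)

/-- Full growth. -/
theorem growth_of_nilNum (hl : ∃ l ∈ S.C X, W.tr X l = 1) (h : NilNum S X) :
    Pool.Agent.N132.IX.Growth S X := by
  refine ⟨?_, hl⟩
  obtain ⟨l, hl, hl1⟩ := hl
  have h1 : (1 : W.H X) ≠ 0 := one_ne_zero_of (ne_zero_of_tr hl1)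
  have hX : 0 < finrank W.K (W.H X) := by
    have : Nontrivial (W.H X) := ⟨⟨1, 0, h1⟩⟩
    exact Module.finrank_pos
  have hpos : ∀ n, 0 < S.al X n := by
    intro n
    obtain ⟨m, hm, hm1⟩ := S.exists_lam hl hl1 n
    refine S.a_pos (Sys.xp_mem_C S hm hm) ?_
    rw [tr_xp, hm1, mul_one]
  set b := finrank W.K (W.H X) with hb
  rcases ratio_dichotomy hpos (S.al_convex X) ((b : ℝ) ^ 2) with ⟨c, hc, hcB, h2⟩ | h2
  · exfalso
    have hb0 : (0 : ℝ) < b := by exact_mod_cast hX
    obtain ⟨l₀, hl₀⟩ := exp_lt hc hcB (b ^ 2) (C := (S.al X 0 : ℝ))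
      (ε := (b : ℝ) ^ 2 / 2) (by positivity)
    have h3 := hl₀ l₀ le_rfl
    have h4 := geom_bound hc h2 l₀
    have h5 : (b : ℝ) ^ (2 * (l₀ + 1)) ≤ S.al X l₀ * ((l₀ : ℝ) + 2) ^ (b ^ 2) := by
      exact_mod_cast al_ge S l₀ h
    have h6 : (0 : ℝ) ≤ ((l₀ : ℝ) + 2) ^ (b ^ 2) := by positivity
    have h7 : (b : ℝ) ^ (2 * (l₀ + 1)) ≤ (b : ℝ) ^ 2 / 2 * ((b : ℝ) ^ 2) ^ l₀ := by
      refine h5.trans (le_trans (mul_le_mul_of_nonneg_right h4 h6) (le_trans (le_of_eq ?_) h3))
      ring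
    have h8 : (b : ℝ) ^ (2 * (l₀ + 1)) = (b : ℝ) ^ 2 * ((b : ℝ) ^ 2) ^ l₀ := by
      rw [← pow_mul]
      ring
    have h9 : (0 : ℝ) < (b : ℝ) ^ 2 * ((b : ℝ) ^ 2) ^ l₀ := by positivity
    nlinarith
  · exact h2

end Pool.Agent.V7H5.AJ
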