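import Pool.Agent.V7H5.AJ.Phan
import Pool.Agent.V7H5.AJ.Gr
import Pool.Agent.N132.IX.Final

/-!
# The index law for families of ideals
-/

open CategoryTheory AlgebraicGeometry
open scoped ENNReal

universe u v w

namespace Pool.Agent.V7H5.AJ

open Module Filter Topology
open Pool.Agent.H914 Pool.Agent.H914.VarClass Pool.Agent.H914.VarClass.Obj
  Pool.Agent.H914.WeilCohomology Pool.Agent.W492.BB Pool.Agent.W550.Corr
  Pool.Agent.N132.IX Pool.Agent.N765.IX
open Pool.Agent.Y133.Half hiding comp_lift lift_eta rho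

variable {k : Type u} [Field k] {𝒱 : VarClass k} {ops : CycleOps 𝒱}
  {W : WeilCohomology.{u, v} ops} {X Y Z P Q V : 𝒱.Obj}

variable {C : CycleTheory.{u, v, w} W} (F : Fam C)

namespace Fam

/-- The ideals on the powers of `X`. -/
noncomputable def G (X : 𝒱.Obj) (n : ℕ) : Submodule W.K (C.A (pw X n)) := F.I (pw X n)

lemma stab (X : 𝒱.Obj) : Stab C X (F.G X) := fun _ _ Γ _ hy => F.act_mem Γ hy

/-- Isomorphic varieties have isomorphic ideals. -/
noncomputable def isoEquiv (θ : X ≅ Y) : F.I Y ≃ₗ[W.K] F.I X :=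
  LinearEquiv.ofLinearMap
    ((C.pull θ.hom).toLinearMap.restrict fun _ hc => F.pull_mem _ hc)
    ((C.pull θ.inv).toLinearMap.restrict fun _ hc => F.pull_mem _ hc)
    (by
      apply LinearMap.ext
      intro x
      apply Subtype.ext
      change C.pull θ.hom (C.pull θ.inv (x : C.A _)) = x
      rw [← TheoryData.pull_comp, θ.hom_inv_id, TheoryData.pull_id])
    (by
      apply LinearMap.ext
      intro x
      apply Subtype.ext
      change C.pull θ.inv (C.pull θ.hom (x : C.A _)) = x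
      rw [← TheoryData.pull_comp, θ.inv_hom_id, TheoryData.pull_id])

lemma not_finite_succ {n : ℕ} (h : ¬ Module.Finite W.K (F.G X n)) :
    ¬ Module.Finite W.K (F.G X (n + 1)) := by
  intro h2
  apply h
  have h3 : Module.Finite W.K (F.I ((pw X n).prod X)) := h2
  let f : F.I (pw X n) →ₗ[W.K] F.I ((pw X n).prod X) :=
    (C.pull (fst (pw X n) X)).toLinearMap.restrict fun _ hc => F.pull_mem _ hc
  have hf : Function.Injective f := by
    intro a b hab
    apply Subtype.ext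
    exact pull_fst_injective C (pw X n) X (congrArg Subtype.val hab)
  exact Module.Finite.of_injective f hf

end Fam

/-- All ranks have limits. -/
lemma hasLim_top (S : Sys W) {l : W.H X} (hl : l ∈ S.C X) (hl1 : W.tr X l = 1) :
    HasLim S X ⊤ := by
  intro m g hg hgg
  obtain ⟨D, h1, h2⟩ := PF.exists_limit S hl hl1 m hg hgg
  exact ⟨D, trivial, h1, h2⟩

/-- The natural numbers. -/
def natM : AddSubmonoid ℝ := AddMonoidHom.mrange (Nat.castAddMonoidHom ℝ)

lemma mem_natM {x : ℝ} : x ∈ natM ↔ ∃ n : ℕ, (n : ℝ) = x := Iff.rfl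

/-- Full growth. -/
lemma hasLim_nat (S : Sys W) (hgr : Growth S X) : HasLim S X natM := by
  intro m g hg hgg
  refine ⟨finrank W.K (LinearMap.range g), mem_natM.2 ⟨_, rfl⟩, tendsto_r S X hgr m hg hgg, ?_⟩
  by_cases h0 : g = 0
  · left
    rw [h0]
    exact Submodule.zero_mem _
  · right
    exact_mod_cast rank_pos h0

namespace Fam

/-- **Phantoms.** -/
lemma phantom_inf (hfin : ∀ n, Module.Finite W.K (F.G X n)) {M : AddSubmonoid ℝ}
    (hgr : HasLim C.S X M) {m : ℕ}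
    {Γ : C.A ((pw X m).prod (pw X m))} {y : C.A (pw X m)} (hΓ : CycleTheory.NumTriv Γ)
    (hyI : y ∈ F.I (pw X m)) (hΓy : C.act Γ y = y) (hy : y ≠ 0) :
    ∀ N : ℕ, ∀ᶠ n in atTop, N * C.S.a (pw X n) ≤ finrank W.K (F.G X n) := by
  intro N
  set P := pw X m with hP
  -- the crude bound
  obtain ⟨D, -, h2, -⟩ := hgr m 1 Sys.Op.id rfl
  set B := ⌊D⌋₊ + 1 with hB
  have h1 : ∀ᶠ q in atTop, C.S.a (pw X (m + q + 1)) ≤ B * C.S.a (pw X q) := by
    have h3 : D < B := by rw [hB]; push_cast; exact Nat.lt_floor_add_one D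
    filter_upwards [h2.eventually (gt_mem_nhds h3)] with q hq
    have hp : (0 : ℝ) < C.S.a (pw X q) := by exact_mod_cast a_pos C _
    rw [div_lt_iff₀ hp, Sys.r_one, C.S.a_iso (pwAdd X m q).symm.symm] at hq
    exact_mod_cast hq.le
  obtain ⟨n₁, hn₁⟩ := eventually_atTop.1 h1
  set k := N * B with hk
  rw [eventually_atTop]
  refine ⟨((k + 1) * (m + 1) + m) + n₁ + 1, fun n' hn' => ?_⟩
  obtain ⟨n, rfl⟩ : ∃ n, n' = ((k + 1) * (m + 1) + m) + n + 1 :=
    ⟨n' - ((k + 1) * (m + 1) + m) - 1, by omega⟩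
  have hn : n₁ ≤ n := by omega
  obtain ⟨θ⟩ := nonempty_pwpw X m k
  obtain ⟨θ'⟩ := nonempty_pwpw X m (k + 1)
  let φ : (pw P k).prod (pw X n) ≅ pw X ((k * (m + 1) + m) + n + 1) :=
    prodCongr θ (Iso.refl _) ≪≫ pwAdd X _ n
  let φ' : (pw P (k + 1)).prod (pw X n) ≅ pw X (((k + 1) * (m + 1) + m) + n + 1) :=
    prodCongr θ' (Iso.refl _) ≪≫ pwAdd X _ n
  have hfin : Module.Finite W.K (F.I ((pw P (k + 1)).prod (pw X n))) := by
    have h7 : Module.Finite W.K (F.I (pw X (((k + 1) * (m + 1) + m) + n + 1))) :=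
      hfin (((k + 1) * (m + 1) + m) + n + 1)
    exact Module.Finite.equiv (F.isoEquiv φ')
  have h4 := F.phantom P hyI hy hΓ hΓy k (pw X n) hfin
  rw [C.S.a_iso φ, ← (F.isoEquiv φ').finrank_eq] at h4
  have h5 := hn₁ ((k * (m + 1) + m) + n + 1) (by omega)
  have h6 : m + ((k * (m + 1) + m) + n + 1) + 1 = ((k + 1) * (m + 1) + m) + n + 1 := by ring
  rw [h6] at h5
  calc N * C.S.a (pw X (((k + 1) * (m + 1) + m) + n + 1))
      ≤ N * (B * C.S.a (pw X ((k * (m + 1) + m) + n + 1))) := Nat.mul_le_mul_left _ h5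
    _ = k * C.S.a (pw X ((k * (m + 1) + m) + n + 1)) := by rw [hk]; ring
    _ ≤ (k + 1) * C.S.a (pw X ((k * (m + 1) + m) + n + 1)) :=
        Nat.mul_le_mul_right _ (Nat.le_succ _)
    _ ≤ _ := h4

/-- The dimension of the ideal, a natural number or infinity. -/
noncomputable def dim (X : 𝒱.Obj) : ℕ∞ := Cardinal.toENat (Module.rank W.K (F.I X))

/-- The ratio of the dimension of the ideal to the dimension of the classes modulo numerical
equivalence. -/
noncomputable def ratio (X : 𝒱.Obj) : ℝ≥0∞ := (F.dim X : ℝ≥0∞) / (C.numRank X : ℝ≥0∞)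

lemma dim_eq [Module.Finite W.K (F.I Z)] : F.dim Z = (finrank W.K (F.I Z) : ℕ∞) := by
  rw [dim, ← finrank_eq_rank, Cardinal.toENat_nat]

lemma dim_top (h : ¬ Module.Finite W.K (F.I Z)) : F.dim Z = ⊤ := by
  rw [dim, Cardinal.toENat_eq_top]
  by_contra h2
  exact h (Module.rank_lt_aleph0_iff.1 (not_le.1 h2))

/-- The alternative. -/
theorem alternative (X : 𝒱.Obj) {M : AddSubmonoid ℝ} (hgr : HasLim C.S X M) :
    (∀ N : ℕ, ∀ᶠ n in atTop, ((N * C.numRank (pw X n) : ℕ) : ℕ∞) ≤ F.dim (pw X n)) ∨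
      (∀ n, Module.Finite W.K (F.G X n)) ∧
      ∃ N ∈ M, Tendsto (fun n => (finrank W.K (F.G X n) : ℝ) / C.S.a (pw X n)) atTop (𝓝 N) ∧
        (1 ≤ N ∨ (∀ n, F.G X n = ⊥)) ∧ ∀ d : ℕ, N < d + 1 → ∀ n, filG C X (F.G X) d n = ⊥ := by
  by_cases hfin : ∀ n, Module.Finite W.K (F.G X n)
  swap
  · left
    push Not at hfin
    obtain ⟨n₁, hn₁⟩ := hfin
    intro N
    filter_upwards [eventually_ge_atTop n₁] with n hn
    have : ¬ Module.Finite W.K (F.G X n) := by
      induction n, hn using Nat.le_induction with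
      | base => exact hn₁
      | succ n _ ih => exact F.not_finite_succ ih
    rw [F.dim_top this]
    exact le_top
  have key : (∀ N : ℕ, ∀ᶠ n in atTop, N * C.S.a (pw X n) ≤ finrank W.K (F.G X n)) →
      ∀ N : ℕ, ∀ᶠ n in atTop, ((N * C.numRank (pw X n) : ℕ) : ℕ∞) ≤ F.dim (pw X n) := by
    intro h N
    filter_upwards [h N] with n hn
    have : Module.Finite W.K (F.I (pw X n)) := hfin n
    rw [F.dim_eq, numRank_eq]
    exact_mod_cast hn
  by_cases hf : NoFixN C X (F.G X)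
  · rcases alt_fin hfin (fun n => a_pos C _) hgr (F.stab X) hf with h | h
    · exact Or.inl (key h)
    · exact Or.inr ⟨hfin, h⟩
  · left
    rw [NoFixN] at hf
    push Not at hf
    obtain ⟨m, Γ, y, hΓ, hyI, hΓy, hy⟩ := hf
    exact key (F.phantom_inf hfin hgr hΓ hyI hΓy hy)

/-- **The index law for families of ideals.** -/
theorem index_law (X : 𝒱.Obj) {M : AddSubmonoid ℝ} (hgr : HasLim C.S X M) :
    ∃ L : ℝ≥0∞, Tendsto (fun n => F.ratio (pw X n)) atTop (𝓝 L) ∧
      (L = ⊤ ∨ ∃ N ∈ M, L = ENNReal.ofReal N) ∧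
      (L = 0 ↔ ∀ n, F.I (pw X n) = ⊥) ∧ (L = 0 ∨ 1 ≤ L) ∧
      ∀ d : ℕ, L < d + 1 → (∀ n, Module.Finite W.K (F.I (pw X n))) ∧
        ∀ n, filG C X (F.G X) d n = ⊥ := by
  have hr : ∀ n, C.numRank (pw X n) ≠ 0 := fun n => by
    rw [numRank_eq]
    exact (a_pos C _).ne'
  have hr0 : ∀ n, (C.numRank (pw X n) : ℝ≥0∞) ≠ 0 := fun n => by exact_mod_cast hr n
  have hr1 : ∀ n, (C.numRank (pw X n) : ℝ≥0∞) ≠ ⊤ := fun n => ENNReal.natCast_ne_top _
  have hbot0 : (∀ n, F.I (pw X n) = ⊥) → Tendsto (fun n => F.ratio (pw X n)) atTop (𝓝 0) := by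
    intro h1
    have h2 : ∀ n, F.ratio (pw X n) = 0 := by
      intro n
      have h3 : F.dim (pw X n) = 0 := by
        rw [dim, h1 n]
        simp
      rw [ratio, h3]
      simp
    exact tendsto_const_nhds.congr fun n => (h2 n).symm
  rcases F.alternative X hgr with h | ⟨hfin, N, hNM, hL, hN0, hbot⟩
  · have ht : Tendsto (fun n => F.ratio (pw X n)) atTop (𝓝 ⊤) := by
      apply ENNReal.tendsto_nhds_top
      intro N
      filter_upwards [h (N + 1)] with n hn
      have h2 : ((N + 1 : ℕ) : ℝ≥0∞) ≤ F.ratio (pw X n) := by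
        rw [ratio, ENNReal.le_div_iff_mul_le (Or.inl (hr0 n)) (Or.inl (hr1 n))]
        have h3 : (((N + 1) * C.numRank (pw X n) : ℕ) : ℕ∞).toENNReal ≤
            (F.dim (pw X n)).toENNReal := ENat.toENNReal_le.2 hn
        rw [ENat.toENNReal_coe] at h3
        exact_mod_cast h3
      refine lt_of_lt_of_le ?_ h2
      exact_mod_cast Nat.lt_succ_self N
    refine ⟨⊤, ht, Or.inl rfl, ⟨fun h1 => absurd h1 (by simp), fun h1 => ?_⟩,
      Or.inr le_top, fun d hd => absurd hd (by simp)⟩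
    exact tendsto_nhds_unique ht (hbot0 h1)
  · have hrat : ∀ n, F.ratio (pw X n) = ENNReal.ofReal
        ((finrank W.K (F.G X n) : ℝ) / C.S.a (pw X n)) := by
      intro n
      have : Module.Finite W.K (F.I (pw X n)) := hfin n
      have hp : (0 : ℝ) < C.S.a (pw X n) := by exact_mod_cast a_pos C _
      rw [ratio, F.dim_eq, numRank_eq, ENat.toENNReal_coe, ENNReal.ofReal_div_of_pos hp,
        ENNReal.ofReal_natCast, ENNReal.ofReal_natCast]
      rfl
    have ht : Tendsto (fun n => F.ratio (pw X n)) atTop (𝓝 (ENNReal.ofReal N)) :=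
      ((ENNReal.continuous_ofReal.tendsto _).comp hL).congr fun n => (hrat n).symm
    have hN1 : (∀ n, F.G X n = ⊥) → ENNReal.ofReal N = 0 := fun h1 =>
      tendsto_nhds_unique ht (hbot0 h1)
    refine ⟨ENNReal.ofReal N, ht, Or.inr ⟨N, hNM, rfl⟩, ⟨fun h1 => ?_, hN1⟩, ?_,
      fun d hd => ?_⟩
    · rcases hN0 with h2 | h2
      · exfalso
        rw [ENNReal.ofReal_eq_zero] at h1
        linarith
      · exact h2
    · rcases hN0 with h2 | h2
      · right
        rw [← ENNReal.ofReal_one]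
        exact ENNReal.ofReal_le_ofReal h2
      · exact Or.inl (hN1 h2)
    · refine ⟨hfin, hbot d ?_⟩
      have h2 : ((d : ℝ≥0∞) + 1) = ENNReal.ofReal ((d : ℝ) + 1) := by
        rw [ENNReal.ofReal_add (Nat.cast_nonneg _) zero_le_one, ENNReal.ofReal_one,
          ENNReal.ofReal_natCast]
      rw [h2] at hd
      exact (ENNReal.ofReal_lt_ofReal_iff (by positivity)).1 hd

end Fam

end Pool.Agent.V7H5.AJ
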