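import Pool.Agent.V7H5.AJ.Defs
import Pool.Agent.V7H5.AJ.Law
import Pool.Agent.V7H5.AJ.Tame
import Pool.Agent.N132.IXS.Conv

/-!
# The index law for the kernels of cycle class maps
-/

open CategoryTheory AlgebraicGeometry Module Filter Topology
open scoped ENNReal

universe u v w x

namespace Pool.Agent.V7H5.AJ

open Pool.Agent.H914 Pool.Agent.H914.VarClass Pool.Agent.H914.VarClass.Obj Pool.Agent.W492.BB
  Pool.Agent.Y133.Half Pool.Agent.N132
open Pool.Agent.N132.IXS (ChowTheory CycleTheory conv)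

variable {k : Type u} [Field k] {𝒱 : VarClass k} {ops : CycleOps 𝒱}
  {W : WeilCohomology.{u, v} ops} {C : CycleTheory.{u, v, w} W}
  (T : CycleMap.{u, v, w, x} C.toChowTheory) {X Y : 𝒱.Obj}

/-- The kernel. -/
def tker (X : 𝒱.Obj) : Submodule W.K (C.A X) := LinearMap.ker (T.cl X).toLinearMap

lemma mem_tker {x : C.A X} : x ∈ tker T X ↔ T.cl X x = 0 := LinearMap.mem_ker

lemma ker_mul (z : C.A X) {y : C.A X} (hy : y ∈ tker T X) : z * y ∈ tker T X := by
  rw [mem_tker] at hy ⊢
  rw [map_mul, hy, mul_zero]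

lemma ker_pull (f : X ⟶ Y) {y : C.A Y} (hy : y ∈ tker T Y) : C.pull f y ∈ tker T X := by
  rw [mem_tker] at hy ⊢
  rw [(T.commutes f).pull, hy, map_zero]

lemma ker_push (f : X ⟶ Y) {y : C.A X} (hy : y ∈ tker T X) : C.push f y ∈ tker T Y := by
  rw [mem_tker] at hy ⊢
  rw [(T.commutes f).push, hy, map_zero]

/-- The kernels form a family of ideals. -/
def fam : Fam (conv C) where
  I := tker T
  mul_mem := fun z _ hy => ker_mul T z hy
  pull_mem := fun f _ hy => ker_pull T f hy
  push_mem := fun f _ hy => ker_push T f hy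

lemma cmp_of {j n : ℕ} {y : C.A (pw X n)} (h : T.Composite X j n y) :
    Cmp (conv C) X ((fam T).G X) j n y := by
  induction h with
  | zero n y hy => exact Cmp.zero (C := conv C) (X := X) (G := (fam T).G X) n y hy
  | succ j m n Γ hΓ y _ ih =>
    exact Cmp.succ (C := conv C) (X := X) (G := (fam T).G X) j m n Γ
      ((IXS.numTriv_conv C).1 hΓ) y ih

lemma nilNum_conv (hX : Sign C X ∨ HomNum C X) : NilNum (conv C).S X := by
  rcases hX with ⟨z, hz⟩ | h
  · apply nilNum_of_par
    have h1 : par (W.isInternal X) = W.corr (C.cl _ z) := by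
      apply gr_ext (W.isInternal X)
      intro i a ha
      rw [par, scal_apply _ _ ha]
      exact (hz i a ha).symm
    rw [h1]
    exact Sys.Op.corr ((conv C).cl_mem_S z)
  · apply nilNum_of_num
    intro n
    rw [eq_bot_iff]
    rintro c ⟨⟨x, hx⟩, h2⟩
    rw [Submodule.mem_bot]
    have h3 : IX.CycleTheory.NumTriv (C := conv C) x := by
      intro y
      have h4 := h2 ((conv C).cl _ y) ⟨y, rfl⟩
      rw [← hx] at h4
      rw [map_mul]
      exact h4
    rw [← hx]
    exact h n x ((IXS.numTriv_conv C).2 h3)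

theorem main :
    ∃ L : ℝ≥0∞, Tendsto (fun n => T.ratio (pw X n)) atTop (𝓝 L) ∧
      (L = 0 ↔ T.IsInjective X) ∧ (L = 0 ∨ 1 ≤ L) ∧ (∀ d : ℕ, L < d + 1 → T.IsBounded X d) ∧
      (Sign C X ∨ HomNum C X → ∃ N : ℕ∞, L = N) := by
  obtain ⟨l, hl, hl1⟩ := IX.exists_lam (conv C) X
  obtain ⟨L, h1, -, h3, h4, h5⟩ := (fam T).index_law X (hasLim_top (conv C).S hl hl1)
  refine ⟨L, ?_, ?_, h4, fun d hd => ?_, fun hX => ?_⟩
  · refine h1.congr fun n => ?_
    rw [Fam.ratio, CycleMap.ratio, IXS.numRank_conv]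
    rfl
  · rw [h3]
    constructor
    · intro h n x hx
      have h4 : (x : C.A (pw X n)) ∈ tker T (pw X n) := (mem_tker T).2 hx
      have h5 : tker T (pw X n) = ⊥ := h n
      rw [h5, Submodule.mem_bot] at h4
      exact h4
    · intro h n
      change tker T (pw X n) = ⊥
      rw [eq_bot_iff]
      intro x hx
      rw [Submodule.mem_bot]
      exact h n x ((mem_tker T).1 hx)
  · obtain ⟨h4, h5⟩ := h5 d hd
    refine ⟨fun n => ?_, fun n y hy => ?_⟩
    · have h6 : Module.Finite W.K (tker T (pw X n)) := h4 n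
      have h7 : kerDim (T.cl (pw X n)) = Cardinal.toENat (Module.rank W.K (tker T (pw X n))) := rfl
      rw [h7, ← finrank_eq_rank, Cardinal.toENat_nat]
      exact ENat.coe_ne_top _
    · have h6 : y ∈ filG (conv C) X ((fam T).G X) d n := Submodule.subset_span (cmp_of T hy)
      rw [h5 n] at h6
      exact (Submodule.mem_bot _).1 h6
  · have hgr : IX.Growth (conv C).S X :=
      growth_of_nilNum _ (IX.exists_lam (conv C) X) (nilNum_conv hX)
    obtain ⟨L', h1', h2', -⟩ := (fam T).index_law X (hasLim_nat (conv C).S hgr)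
    have h6 := tendsto_nhds_unique h1 h1'
    rcases h2' with h7 | ⟨N, hN, h7⟩
    · exact ⟨⊤, by rw [h6, h7]; simp⟩
    · obtain ⟨n, rfl⟩ := mem_natM.1 hN
      exact ⟨n, by rw [h6, h7, ENNReal.ofReal_natCast]; simp⟩

end Pool.Agent.V7H5.AJ
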