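import Pool.Agent.V7H5.AJ.Chain
import Pool.Agent.N132.IX.Phantom

/-!
# Classes of an ideal fixed by numerically trivial correspondences
-/

open CategoryTheory AlgebraicGeometry

universe u v w

namespace Pool.Agent.V7H5.AJ

open Module Filter Topology
open Pool.Agent.H914 Pool.Agent.H914.VarClass Pool.Agent.H914.VarClass.Obj
  Pool.Agent.H914.WeilCohomology Pool.Agent.W492.BB Pool.Agent.W550.Corr
  Pool.Agent.N132.IX Pool.Agent.N765.IX
open Pool.Agent.Y133.Half hiding comp_lift lift_eta rho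

variable {k : Type u} [Field k] {𝒱 : VarClass k} {ops : CycleOps 𝒱}
  {W : WeilCohomology.{u, v} ops} {X Y Z P Q V : 𝒱.Obj}

/-- Commuting idempotents. -/
lemma idem_pair {R : Type*} [Ring R] {τ ε β : R} (hττ : τ * τ = τ) (hεε : ε * ε = ε)
    (hc : ε * τ = τ * ε) (h : τ = β + ε * τ) :
    (ε * τ) * (ε * τ) = ε * τ ∧ β * β = β ∧ (ε * τ) * β = 0 ∧ β * (ε * τ) = 0 := by
  have hβ : β = τ - ε * τ := by rw [eq_sub_iff_add_eq]; exact h.symm
  have hAA : (ε * τ) * (ε * τ) = ε * τ := by
    calc (ε * τ) * (ε * τ) = ε * (τ * ε) * τ := by simp only [mul_assoc]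
      _ = ε * (ε * τ) * τ := by rw [hc]
      _ = (ε * ε) * (τ * τ) := by simp only [mul_assoc]
      _ = ε * τ := by rw [hεε, hττ]
  have hAτ : (ε * τ) * τ = ε * τ := by rw [mul_assoc, hττ]
  have hτA : τ * (ε * τ) = ε * τ := by
    rw [← mul_assoc, ← hc, mul_assoc, hττ]
  rw [hβ]
  refine ⟨hAA, ?_, ?_, ?_⟩
  · rw [mul_sub, sub_mul, sub_mul, hττ, hAτ, hτA, hAA, sub_self, sub_zero]
  · rw [mul_sub, hAτ, hAA, sub_self]
  · rw [sub_mul, hτA, hAA, sub_self]

/-- A family of ideals stable under pull-backs and push-forwards. -/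
structure Fam (C : CycleTheory.{u, v, w} W) where
  /-- the ideal -/
  I : ∀ X : 𝒱.Obj, Submodule W.K (C.A X)
  mul_mem : ∀ {X : 𝒱.Obj} (x : C.A X) {y : C.A X}, y ∈ I X → x * y ∈ I X
  pull_mem : ∀ {X Y : 𝒱.Obj} (f : X ⟶ Y) {y : C.A Y}, y ∈ I Y → C.pull f y ∈ I X
  push_mem : ∀ {X Y : 𝒱.Obj} (f : X ⟶ Y) {y : C.A X}, y ∈ I X → C.push f y ∈ I Y

variable {C : CycleTheory.{u, v, w} W} (F : Fam C)

namespace Fam

lemma act_mem (Γ : C.A (P.prod Q)) {y : C.A P} (hy : y ∈ F.I P) : C.act Γ y ∈ F.I Q :=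
  F.push_mem _ (F.mul_mem _ (F.pull_mem _ hy))

lemma comp_mem {c : C.A (V.prod Q)} (hc : c ∈ F.I (V.prod Q)) (T : C.A (Q.prod Z)) :
    C.comp c T ∈ F.I (V.prod Z) := by
  rw [comp_eq_extR]
  exact F.push_mem _ (F.mul_mem _ (F.pull_mem _ hc))

/-- The operator `c ↦ comp c T`. -/
noncomputable def op (V : 𝒱.Obj) {Q : 𝒱.Obj} (T : C.A (Q.prod Q)) :
    Module.End W.K (F.I (V.prod Q)) :=
  (cR C V T).restrict fun _ hc => F.comp_mem hc T

lemma op_val (V : 𝒱.Obj) {Q : 𝒱.Obj} (T : C.A (Q.prod Q)) (c : F.I (V.prod Q)) :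
    ((F.op V T c : F.I (V.prod Q)) : C.A (V.prod Q)) = C.comp (c : C.A (V.prod Q)) T := rfl

lemma op_comp (V : 𝒱.Obj) {Q : 𝒱.Obj} (T T' : C.A (Q.prod Q)) :
    F.op V (C.comp T T') = F.op V T' * F.op V T := by
  apply LinearMap.ext
  intro c
  apply Subtype.ext
  change C.comp (c : C.A (V.prod Q)) (C.comp T T') = C.comp (C.comp (c : C.A (V.prod Q)) T) T'
  rw [comp_assoc]

lemma op_add (V : 𝒱.Obj) {Q : 𝒱.Obj} (T T' : C.A (Q.prod Q)) :
    F.op V (T + T') = F.op V T + F.op V T' := by
  apply LinearMap.ext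
  intro c
  apply Subtype.ext
  exact comp_add _ _ _ _

lemma op_smul (V : 𝒱.Obj) {Q : 𝒱.Obj} (a : W.K) (T : C.A (Q.prod Q)) :
    F.op V (a • T) = a • F.op V T := by
  apply LinearMap.ext
  intro c
  apply Subtype.ext
  exact map_smul ((compL C.toTheoryData) (c : C.A (V.prod Q))) a T

lemma op_sub (V : 𝒱.Obj) {Q : 𝒱.Obj} (T T' : C.A (Q.prod Q)) :
    F.op V (T - T') = F.op V T - F.op V T' := by
  apply LinearMap.ext
  intro c
  apply Subtype.ext
  exact comp_sub _ _ _ _

lemma op_dg (V Q : 𝒱.Obj) : F.op V (dg C.toTheoryData Q) = 1 := by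
  apply LinearMap.ext
  intro c
  apply Subtype.ext
  exact comp_dg _ _

/-- the isomorphism on the ideals -/
noncomputable def phiI (V P Q : 𝒱.Obj) : F.I (V.prod (Q.prod P)) ≃ₗ[W.K] F.I ((V.prod P).prod Q) :=
  LinearEquiv.ofLinearMap
    ((C.pull (bt V P Q)).toLinearMap.restrict fun _ hc => F.pull_mem _ hc)
    ((C.pull (bt' V P Q)).toLinearMap.restrict fun _ hc => F.pull_mem _ hc)
    (by
      apply LinearMap.ext
      intro x
      apply Subtype.ext
      change C.pull (bt V P Q) (C.pull (bt' V P Q) (x : C.A _)) = x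
      rw [← TheoryData.pull_comp, bt_bt', TheoryData.pull_id])
    (by
      apply LinearMap.ext
      intro x
      apply Subtype.ext
      change C.pull (bt' V P Q) (C.pull (bt V P Q) (x : C.A _)) = x
      rw [← TheoryData.pull_comp, bt'_bt, TheoryData.pull_id])

lemma phiI_op (T : C.A (Q.prod Q)) (c : F.I (V.prod (Q.prod P))) :
    F.phiI V P Q (F.op V (TH133.tens C.toTheoryData T (dg C.toTheoryData P)) c) =
      F.op (V.prod P) T (F.phiI V P Q c) := by
  apply Subtype.ext
  exact Pool.Agent.N765.IX.nat (V := V) (P := P) (Q := Q) C T (c : C.A (V.prod (Q.prod P)))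

lemma rank_tens (T : C.A (Q.prod Q)) :
    finrank W.K (LinearMap.range (F.op (V.prod P) T)) = finrank W.K (LinearMap.range
      (F.op V (TH133.tens C.toTheoryData T (dg C.toTheoryData P)))) := by
  have h1 : LinearMap.range (F.op (V.prod P) T) = (LinearMap.range
      (F.op V (TH133.tens C.toTheoryData T (dg C.toTheoryData P)))).map
        (F.phiI V P Q).toLinearMap := by
    ext x
    simp only [LinearMap.mem_range, Submodule.mem_map]
    constructor
    · rintro ⟨c, rfl⟩
      obtain ⟨c, rfl⟩ := (F.phiI V P Q).surjective c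
      exact ⟨_, ⟨c, rfl⟩, F.phiI_op T c⟩
    · rintro ⟨_, ⟨c, rfl⟩, rfl⟩
      exact ⟨F.phiI V P Q c, (F.phiI_op T c).symm⟩
  rw [h1]
  exact LinearEquiv.finrank_map_eq (F.phiI V P Q) _

/-- idempotency is transported -/
lemma idem_tens {T : C.A (Q.prod Q)} (hT : F.op (V.prod P) T * F.op (V.prod P) T =
    F.op (V.prod P) T) : F.op V (TH133.tens C.toTheoryData T (dg C.toTheoryData P)) *
      F.op V (TH133.tens C.toTheoryData T (dg C.toTheoryData P)) =
      F.op V (TH133.tens C.toTheoryData T (dg C.toTheoryData P)) := by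
  apply LinearMap.ext
  intro c
  apply (F.phiI V P Q).injective
  rw [Module.End.mul_apply, phiI_op, phiI_op]
  exact congrArg (fun f => f (F.phiI V P Q c)) hT

/-- inserted classes belong to the ideal -/
lemma io_mem {y : C.A P} (hy : y ∈ F.I P) (x : C.A (V.prod Q)) :
    C.comp x (io C Q y) ∈ F.I (V.prod (Q.prod P)) := by
  have h1 : C.comp x (io C Q y) = C.pull (snd V (Q.prod P) ≫ snd Q P) y *
      C.pull (prodMap (𝟙 V) (fst Q P)) x := by
    rw [comp_eq_extR, io, extR_cw, ← TheoryData.pull_comp]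
  rw [h1, C.mul_comm]
  exact F.mul_mem _ (F.pull_mem _ hy)

/-- the rank of one slot -/
theorem rank_slot {y : C.A P} (hyI : y ∈ F.I P) (hy : y ≠ 0) {e : C.A (P.prod P)}
    (hey : C.act e y = y)
    {T : C.A (Q.prod Q)} (hT : CycleTheory.NumTriv (T - dg C.toTheoryData Q)) (V : 𝒱.Obj)
    [hfin : Module.Finite W.K (F.I (V.prod (Q.prod P)))] :
    C.S.a (V.prod Q) ≤ finrank W.K
      (LinearMap.range (F.op V (TH133.tens C.toTheoryData T e))) := by
  let Λ0 : C.A (V.prod Q) →ₗ[W.K] C.A (V.prod (Q.prod P)) := cR C V (io C Q y) ∘ₗ cR C V T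
  let Λ : C.A (V.prod Q) →ₗ[W.K] F.I (V.prod (Q.prod P)) :=
    Λ0.codRestrict _ fun x => F.io_mem hyI (C.comp x T)
  let B : C.A (V.prod Q) →ₗ[W.K] (C.S.C (V.prod Q) →ₗ[W.K] W.K) :=
    C.S.F (V.prod Q) 1 ∘ₗ (C.cl (V.prod Q)).toLinearMap.rangeRestrict
  have h1 : LinearMap.ker Λ ≤ LinearMap.ker B := by
    intro x hx
    rw [LinearMap.mem_ker] at hx ⊢
    have hx' : C.comp (C.comp x T) (io C Q y) = 0 := congrArg Subtype.val hx
    have h2 := num_of_io C hy (x := C.comp x T) hx'
    apply LinearMap.ext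
    rintro ⟨_, ⟨w, rfl⟩⟩
    have h3 := h2 w
    have h4 := numTriv_comp_right x hT w
    rw [comp_sub, comp_dg, sub_mul, map_sub, map_sub, h3, zero_sub, neg_eq_zero, map_mul] at h4
    exact h4
  have h2 : LinearMap.range Λ ≤ LinearMap.range (F.op V (TH133.tens C.toTheoryData T e)) := by
    rintro _ ⟨x, rfl⟩
    refine ⟨⟨C.comp x (io C Q y), F.io_mem hyI x⟩, Subtype.ext ?_⟩
    change C.comp (C.comp x (io C Q y)) (TH133.tens C.toTheoryData T e) =
      C.comp (C.comp x T) (io C Q y)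
    rw [comp_assoc, io, slot C T hey, comp_assoc]
  have h3 : LinearMap.range B = LinearMap.range (C.S.F (V.prod Q) 1) := by
    apply LinearMap.range_comp_of_range_eq_top
    exact LinearMap.range_rangeRestrict _
  have h4 : C.S.a (V.prod Q) = finrank W.K (LinearMap.range B) := by rw [h3]; rfl
  rw [h4]
  exact (rank_le_of_ker h1).trans (Submodule.finrank_mono h2)

section poly

open Polynomial

/-- A polynomial in a correspondence. -/
noncomputable def pc (C : CycleTheory.{u, v, w} W) {P : 𝒱.Obj} (Γ : C.A (P.prod P))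
    (p : W.K[X]) : C.A (P.prod P) := aeval (cR C P Γ) p (dg C.toTheoryData P)

lemma pc_add (Γ : C.A (P.prod P)) (p q : W.K[X]) : pc C Γ (p + q) = pc C Γ p + pc C Γ q := by
  rw [pc, map_add, LinearMap.add_apply]; rfl

lemma pc_monomial (Γ : C.A (P.prod P)) (n : ℕ) (a : W.K) :
    pc C Γ (monomial n a) = a • ((cR C P Γ) ^ n) (dg C.toTheoryData P) := by
  rw [pc, aeval_monomial]
  rfl

lemma pow_succ_dg (Γ : C.A (P.prod P)) (n : ℕ) :
    ((cR C P Γ) ^ (n + 1)) (dg C.toTheoryData P) =
      C.comp (((cR C P Γ) ^ n) (dg C.toTheoryData P)) Γ := by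
  rw [pow_succ', Module.End.mul_apply]; rfl

lemma act_pc {Γ : C.A (P.prod P)} {y : C.A P} (h : C.act Γ y = y) (p : W.K[X]) :
    C.act (pc C Γ p) y = p.eval 1 • y := by
  induction p using Polynomial.induction_on' with
  | add p q hp hq =>
    rw [pc_add, TheoryData.act_add, hp, hq, Polynomial.eval_add, add_smul]
  | monomial n a =>
    rw [pc_monomial, Polynomial.eval_monomial, one_pow, mul_one]
    have h1 : ∀ n : ℕ, C.act (((cR C P Γ) ^ n) (dg C.toTheoryData P)) y = y := by
      intro n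
      induction n with
      | zero => rw [pow_zero, Module.End.one_apply, act_dg]
      | succ n ih => rw [pow_succ_dg, TheoryData.act_comp, ih, h]
    have h3 : C.act (a • ((cR C P Γ) ^ n) (dg C.toTheoryData P)) y =
        a • C.act (((cR C P Γ) ^ n) (dg C.toTheoryData P)) y := by
      rw [← actB_apply, map_smul, LinearMap.smul_apply, actB_apply]
    rw [h3, h1 n]

lemma num_pc {Γ : C.A (P.prod P)} (hΓ : CycleTheory.NumTriv Γ) (q : W.K[X]) :
    CycleTheory.NumTriv (pc C Γ (q * Polynomial.X)) := by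
  have h1 : pc C Γ (q * Polynomial.X) = C.comp (aeval (cR C P Γ) q (dg C.toTheoryData P)) Γ := by
    rw [pc, mul_comm, map_mul, aeval_X, Module.End.mul_apply]
    rfl
  rw [h1]
  exact numTriv_comp_right _ hΓ

lemma tens_smul (T : C.A (Q.prod Q)) (a : W.K) (g : C.A (P.prod P)) :
    TH133.tens C.toTheoryData T (a • g) = a • TH133.tens C.toTheoryData T g := by
  rw [TH133.tens, TH133.tens, map_smul, mul_smul_comm]

lemma op_tens_pc (V : 𝒱.Obj) {Q : 𝒱.Obj} (Γ : C.A (P.prod P)) (p : W.K[X]) :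
    F.op V (TH133.tens C.toTheoryData (dg C.toTheoryData Q) (pc C Γ p)) =
      aeval (F.op V (TH133.tens C.toTheoryData (dg C.toTheoryData Q) Γ)) p := by
  induction p using Polynomial.induction_on' with
  | add p q hp hq => rw [pc_add, tens_add, op_add, hp, hq, map_add]
  | monomial n a =>
    rw [pc_monomial, tens_smul, op_smul, aeval_monomial]
    have h1 : ∀ n : ℕ, F.op V (TH133.tens C.toTheoryData (dg C.toTheoryData Q)
        (((cR C P Γ) ^ n) (dg C.toTheoryData P))) =
        F.op V (TH133.tens C.toTheoryData (dg C.toTheoryData Q) Γ) ^ n := by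
      intro n
      induction n with
      | zero => rw [pow_zero, Module.End.one_apply, TH133.tens_dg, op_dg, pow_zero]
      | succ n ih =>
        have h2 : TH133.tens C.toTheoryData (dg C.toTheoryData Q)
            (((cR C P Γ) ^ (n + 1)) (dg C.toTheoryData P)) =
            C.comp (TH133.tens C.toTheoryData (dg C.toTheoryData Q)
              (((cR C P Γ) ^ n) (dg C.toTheoryData P)))
              (TH133.tens C.toTheoryData (dg C.toTheoryData Q) Γ) := by
          rw [TH133.tens_comp C.toTheoryData C.mul_comm, pow_succ_dg, comp_dg]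
        rw [h2, op_comp, ih, pow_succ']
    rw [h1 n]
    exact Algebra.smul_def a _

end poly

lemma num_add {x y : C.A Z} (hx : CycleTheory.NumTriv x) (hy : CycleTheory.NumTriv y) :
    CycleTheory.NumTriv (x + y) := by
  intro z
  rw [add_mul, map_add, map_add, hx z, hy z, add_zero]

lemma num_neg {x : C.A Z} (hx : CycleTheory.NumTriv x) : CycleTheory.NumTriv (-x) := by
  intro z
  rw [neg_mul, map_neg, map_neg, hx z, neg_zero]

lemma num_tens {T : C.A (Q.prod Q)} (hT : CycleTheory.NumTriv (T - dg C.toTheoryData Q))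
    {e : C.A (P.prod P)} (he : CycleTheory.NumTriv e) :
    CycleTheory.NumTriv (TH133.tens C.toTheoryData T (dg C.toTheoryData P - e) -
      dg C.toTheoryData (Q.prod P)) := by
  have h1 : TH133.tens C.toTheoryData T (dg C.toTheoryData P - e) -
      dg C.toTheoryData (Q.prod P) =
      TH133.tens C.toTheoryData (T - dg C.toTheoryData Q) (dg C.toTheoryData P) +
        -TH133.tens C.toTheoryData T e := by
    rw [← TH133.tens_dg C.toTheoryData, TH133.tens, TH133.tens, TH133.tens, TH133.tens, map_sub,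
      map_sub, mul_sub, sub_mul]
    abel
  rw [h1]
  refine num_add ?_ (num_neg ?_)
  · exact numTriv_mul (numTriv_pull _ hT) _
  · exact numTriv_mul' (numTriv_pull _ he) _

/-- the count -/
theorem claim {y : C.A P} (hyI : y ∈ F.I P) (hy : y ≠ 0) {Γ : C.A (P.prod P)}
    (hΓ : CycleTheory.NumTriv Γ) (hΓy : C.act Γ y = y) (k : ℕ) :
    ∀ (Q : 𝒱.Obj) (T : C.A (Q.prod Q)), F.op (pw P (k + 1)) T * F.op (pw P (k + 1)) T =
        F.op (pw P (k + 1)) T →
      CycleTheory.NumTriv (T - dg C.toTheoryData Q) →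
      Module.Finite W.K (F.I ((pw P (k + 1)).prod Q)) →
      (k + 1) * C.S.a ((pw P k).prod Q) ≤
        finrank W.K (LinearMap.range (F.op (pw P (k + 1)) T)) := by
  set D := dg C.toTheoryData P with hD
  induction k with
  | zero =>
    intro Q T hTT hT hfin
    have hfin' : Module.Finite W.K (F.I (((pw P 0).prod P).prod Q)) := hfin
    have hf : Module.Finite W.K (F.I ((pw P 0).prod (Q.prod P))) :=
      Module.Finite.equiv (F.phiI (pw P 0) P Q).symm
    have h1 := F.rank_slot hyI hy (e := D) (act_dg _ _) hT (pw P 0)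
    have h2 : finrank W.K (LinearMap.range (F.op (pw P (0 + 1)) T)) = _ :=
      F.rank_tens (V := pw P 0) (P := P) T
    rw [h2, Nat.zero_add, one_mul]
    exact h1
  | succ k ih =>
    intro Q T hTT hT hfin
    have hfin' : Module.Finite W.K (F.I (((pw P (k + 1)).prod P).prod Q)) := hfin
    have hf : Module.Finite W.K (F.I ((pw P (k + 1)).prod (Q.prod P))) :=
      Module.Finite.equiv (F.phiI (pw P (k + 1)) P Q).symm
    obtain ⟨q, hq1, hq2⟩ := exists_idem_poly
      (F.op (pw P (k + 1)) (TH133.tens C.toTheoryData (dg C.toTheoryData Q) Γ))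
    set e := pc C Γ (q * Polynomial.X) with he
    have hey : C.act e y = y := by rw [he, act_pc hΓy, hq1, one_smul]
    have he0 : CycleTheory.NumTriv e := num_pc hΓ q
    -- the two commuting idempotents
    set τ := F.op (pw P (k + 1)) (TH133.tens C.toTheoryData T D) with hτ
    set ε := F.op (pw P (k + 1)) (TH133.tens C.toTheoryData (dg C.toTheoryData Q) e) with hε
    have hττ : τ * τ = τ := F.idem_tens hTT
    have hεε : ε * ε = ε := by
      rw [hε, he, op_tens_pc, ← map_mul]
      exact hq2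
    have e1 : F.op (pw P (k + 1)) (TH133.tens C.toTheoryData T e) = ε * τ := by
      rw [hε, hτ, ← op_comp, TH133.tens_comp C.toTheoryData C.mul_comm, comp_dg, hD, dg_comp]
    have e2 : F.op (pw P (k + 1)) (TH133.tens C.toTheoryData T e) = τ * ε := by
      rw [hε, hτ, ← op_comp, TH133.tens_comp C.toTheoryData C.mul_comm, dg_comp, hD, comp_dg]
    set β := F.op (pw P (k + 1)) (TH133.tens C.toTheoryData T (D - e)) with hβ
    have h6 : τ = β + ε * τ := by
      have h5 : TH133.tens C.toTheoryData T D = TH133.tens C.toTheoryData T (D - e) +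
          TH133.tens C.toTheoryData T e := by rw [← tens_add, sub_add_cancel]
      rw [← e1, hβ, ← op_add, ← h5]
    have hc : ε * τ = τ * ε := e1.symm.trans e2
    obtain ⟨hAA, hBB, hAB, hBA⟩ := idem_pair
      (R := Module.End W.K (F.I ((pw P (k + 1)).prod (Q.prod P)))) (τ := τ) (ε := ε) (β := β)
      hττ hεε hc h6
    have h1 := F.rank_slot hyI hy hey hT (pw P (k + 1))
    have h2 : finrank W.K (LinearMap.range (F.op (pw P (k + 1 + 1)) T)) = _ :=
      F.rank_tens (V := pw P (k + 1)) (P := P) T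
    have h3 := ih (Q.prod P) (TH133.tens C.toTheoryData T (D - e)) hBB
      (num_tens hT he0) hf
    have h4 : C.S.a ((pw P (k + 1)).prod Q) = C.S.a ((pw P k).prod (Q.prod P)) :=
      Sys.a_iso C.S (btI (pw P k) P Q)
    rw [← h4] at h3
    have ap : ∀ {a b c : Module.End W.K (F.I ((pw P (k + 1)).prod (Q.prod P)))}, a * b = c →
        ∀ x, a (b x) = c x := by
      intro a b c h x
      rw [← h]
      rfl
    have h7 := rank_add_le (A := ε * τ) (B := β)
      (ap hAA) (ap hBB) (fun x => by rw [ap hAB x]; rfl) (fun x => by rw [ap hBA x]; rfl)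
    have h8 : ε * τ + β = τ := (add_comm _ _).trans h6.symm
    rw [h8] at h7
    rw [e1] at h1
    rw [h2]
    calc (k + 1 + 1) * C.S.a ((pw P (k + 1)).prod Q) =
        C.S.a ((pw P (k + 1)).prod Q) + (k + 1) * C.S.a ((pw P (k + 1)).prod Q) := by ring
      _ ≤ _ := (add_le_add h1 h3).trans h7

/-- A nonzero class of the ideal fixed by a numerically trivial correspondence. -/
theorem phantom (P : 𝒱.Obj) {y : C.A P} (hyI : y ∈ F.I P) (hy : y ≠ 0) {Γ : C.A (P.prod P)}
    (hΓ : CycleTheory.NumTriv Γ) (hΓy : C.act Γ y = y)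
    (k : ℕ) (Z : 𝒱.Obj) (hfin : Module.Finite W.K (F.I ((pw P (k + 1)).prod Z))) :
    (k + 1) * C.S.a ((pw P k).prod Z) ≤ finrank W.K (F.I ((pw P (k + 1)).prod Z)) := by
  have h1 := F.claim hyI hy hΓ hΓy k Z (dg C.toTheoryData Z)
    (by rw [op_dg, mul_one]) (by rw [sub_self]; exact numTriv_of_cl (map_zero _)) hfin
  exact h1.trans (Submodule.finrank_le _)

end Fam

end Pool.Agent.V7H5.AJ
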