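import Pool.Agent.N132.IX.Lim
import Pool.Agent.V7H5.PF.Main

/-!
# One step of a composition series in a family of finite-dimensional spaces of classes
-/

open CategoryTheory AlgebraicGeometry

universe u v w

namespace Pool.Agent.V7H5.AJ

open Module Filter Topology
open Pool.Agent.H914 Pool.Agent.H914.VarClass Pool.Agent.H914.VarClass.Obj
  Pool.Agent.H914.WeilCohomology Pool.Agent.W492.BB Pool.Agent.W550.Corr Pool.Agent.Y133.Half
open Pool.Agent.N316.IX Pool.Agent.N132.IX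

/-- dimension of a sum of subspaces -/
lemma finrank_sup2 {K V : Type*} [Field K] [AddCommGroup V] [Module K V]
    (U R : Submodule K V) [FiniteDimensional K (U ⊔ R : Submodule K V)] :
    finrank K (U ⊔ R : Submodule K V) = finrank K U + finrank K (R.map U.mkQ) := by
  have h0 : (U ⊔ R : Submodule K V).map U.mkQ = R.map U.mkQ := by
    rw [Submodule.map_sup, Submodule.mkQ_map_self, bot_sup_eq]
  have h1 := LinearMap.finrank_range_add_finrank_ker (U.mkQ.domRestrict (U ⊔ R))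
  rw [LinearMap.range_domRestrict, h0] at h1
  rw [← h1, add_comm (finrank K U)]
  congr 1
  have h2 : LinearMap.ker (U.mkQ.domRestrict (U ⊔ R)) = U.submoduleOf (U ⊔ R) := by
    ext x
    simp [Submodule.submoduleOf]
  rw [h2]
  have h3 : U ≤ U ⊔ R := le_sup_left
  exact (Submodule.submoduleOfEquivOfLe h3).finrank_eq

variable {k : Type u} [Field k] {𝒱 : VarClass k} {ops : CycleOps 𝒱}
  {W : WeilCohomology.{u, v} ops} {X Y Z P Q V : 𝒱.Obj}

variable (C : CycleTheory.{u, v, w} W)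

/-- One step of a composition series. -/
theorem step (X : 𝒱.Obj) {G' G : ∀ n, Submodule W.K (C.A (pw X n))}
    (hfin : ∀ n, Module.Finite W.K (G n))
    (hG' : Stab C X G') (hG : Stab C X G) (hle : ∀ n, G' n ≤ G n)
    (h0 : ∀ (m n : ℕ) (Γ : C.A ((pw X m).prod (pw X n))), CycleTheory.NumTriv Γ → ∀ y ∈ G m,
      C.act Γ y ∈ G' n) {m : ℕ} {y : C.A (pw X m)} (hy : y ∈ G m) (hy' : y ∉ G' m) :
    ∃ g ∈ C.S.Op (pw X m) (pw X m), g ∘ₗ g = g ∧ g ∉ C.S.NOp (pw X m) (pw X m) ∧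
      ∃ G'' : ∀ n, Submodule W.K (C.A (pw X n)), Stab C X G'' ∧ (∀ n, G' n ≤ G'' n) ∧
        (∀ n, G'' n ≤ G n) ∧ ∀ n, finrank W.K (G'' n) =
          finrank W.K (G' n) + C.S.r (pw X m) g (pw X n) := by
  classical
  -- the key remark
  have star : ∀ (n : ℕ) (Γ Γ' : C.A ((pw X m).prod (pw X n))),
      C.rho _ _ Γ = C.rho _ _ Γ' → ∀ a ∈ G m, C.act Γ a - C.act Γ' a ∈ G' n := by
    intro n Γ Γ' h a ha
    rw [← C.act_sub]
    refine h0 m n _ (numTriv_of_cl ?_) a ha
    rw [← C.rho_eq_zero, map_sub, h, sub_self]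
  obtain ⟨s, hs'⟩ := exists_sec C (pw X m)
  let α : opAlg C.S (pw X m) →ₗ[W.K] C.A (pw X m) →ₗ[W.K] C.A (pw X m) :=
    (actB C.toTheoryData) ∘ₗ s
  have hα : ∀ (x : opAlg C.S (pw X m)) (a : C.A (pw X m)), α x a = C.act (s x) a :=
    fun x a => rfl
  obtain ⟨g, hgg, z, hz, hz', hgz, key⟩ := abs_step (opAlg C.S (pw X m))
    (par (W.isInternal (pw X m))) (fun x hx => (Sys.Op.ev (mem_opAlg.1 hx)).par_comm) α
    (fun x a ha => hG' m m _ a ha) (fun x a ha => hG m m _ a ha)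
    (fun a ha => by
      have h1 := star m (s 1) (dg C.toTheoryData (pw X m)) (by
        rw [hs', C.rho_dg]; rfl) a ha
      rwa [act_dg] at h1)
    (fun x y a ha => by
      have h1 := star m (s (x * y)) (C.comp (s y) (s x)) (by
        rw [hs', C.rho_comp, hs', hs']; rfl) a ha
      rwa [C.act_comp] at h1) ⟨y, hy, hy'⟩
  have hgO : (g : Module.End W.K (W.H (pw X m))) ∈ C.S.Op (pw X m) (pw X m) := g.2
  have hgg' : (g : Module.End W.K (W.H (pw X m))) ∘ₗ (g : Module.End W.K (W.H (pw X m))) = g :=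
    congrArg Subtype.val hgg
  have hle2 : ∀ n, G' n ⊔ LinearMap.range ((actB C.toTheoryData).flip z) ≤ G n := by
    intro n
    refine sup_le (hle n) ?_
    rintro _ ⟨Δ, rfl⟩
    exact hG m n Δ z hz
  refine ⟨g, hgO, hgg', ?_, fun n => G' n ⊔ LinearMap.range ((actB C.toTheoryData).flip z), ?_,
    fun n => le_sup_left, hle2, ?_⟩
  · intro h
    have h1 : CycleTheory.NumTriv (s g) := by
      rw [numTriv_iff]
      obtain ⟨c, hc, h2⟩ := Sys.mem_NOp.1 h
      have h3 : corrL W (pw X m) (pw X m) (C.cl _ (s g) - c) = 0 := by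
        rw [map_sub, sub_eq_zero]
        exact (hs' g).trans h2.symm
      have h4 : C.cl _ (s g) - c = 0 := corr_inj h3
      rw [sub_eq_zero] at h4
      rw [h4]
      exact hc
    have h2 := h0 m m _ h1 z hz
    have h3 := Submodule.sub_mem _ h2 hgz
    rw [hα, sub_sub_cancel] at h3
    exact hz' h3
  · intro a b Γ x hx
    obtain ⟨x1, hx1, x2, ⟨Δ, rfl⟩, rfl⟩ := Submodule.mem_sup.1 hx
    rw [act_map_add]
    refine Submodule.add_mem_sup (hG' _ _ _ _ hx1) ⟨C.comp Δ Γ, ?_⟩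
    exact C.act_comp Δ Γ z
  · intro n
    have hfn := hfin n
    have hfn2 : FiniteDimensional W.K
        (G' n ⊔ LinearMap.range ((actB C.toTheoryData).flip z) : Submodule W.K _) :=
      Submodule.finiteDimensional_of_le (hle2 n)
    rw [finrank_sup2]
    congr 1
    rw [← LinearMap.range_comp]
    have h1 : C.S.r (pw X m) g (pw X n) =
        finrank W.K (LinearMap.range ((C.S.BO (pw X m) (pw X n) g LinearMap.id).flip ∘ₗ
          rhoS C (pw X m) (pw X n))) := by
      rw [LinearMap.range_comp_of_range_eq_top _ (rhoS_range C _ _), ← C.S.rk_BO_r (Sys.Op.ev hgO),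
        ← rk_flip, rk]
    rw [h1]
    apply finrank_range_eq
    ext Γ
    rw [LinearMap.mem_ker, LinearMap.mem_ker]
    have e1 : ((G' n).mkQ ∘ₗ (actB C.toTheoryData).flip z) Γ = 0 ↔ C.act Γ z ∈ G' n := by
      rw [LinearMap.comp_apply, Submodule.mkQ_apply, Submodule.Quotient.mk_eq_zero]
      rfl
    rw [e1]
    constructor
    · intro h
      apply LinearMap.ext
      intro u
      rw [LinearMap.comp_apply, LinearMap.flip_apply, Sys.BO_apply, LinearMap.id_comp,
        LinearMap.zero_apply]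
      obtain ⟨Δ, hΔ⟩ := C.exists_rho u.2
      have h2 : C.rho (pw X m) (pw X m) (C.comp Γ Δ) ∈ opAlg C.S (pw X m) := C.rho_mem _
      have h3 := key ⟨_, h2⟩ (by
        rw [hα]
        have h4 := star m (s ⟨_, h2⟩) (C.comp Γ Δ) (hs' _) z hz
        have h5 : C.act (C.comp Γ Δ) z ∈ G' m := by
          rw [C.act_comp]
          exact hG' n m Δ _ h
        have h6 := Submodule.add_mem _ h4 h5
        rwa [sub_add_cancel] at h6)
      have h7 : C.rho (pw X m) (pw X m) (C.comp Γ Δ) =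
        C.rho (pw X n) (pw X m) Δ ∘ₗ C.rho (pw X m) (pw X n) Γ := C.rho_comp Γ Δ
      have h8 : LinearMap.trace W.K (W.H (pw X m)) (par (W.isInternal (pw X m)) *
          (g : Module.End W.K (W.H (pw X m))) * C.rho (pw X m) (pw X m) (C.comp Γ Δ)) = 0 := h3
      rw [h7] at h8
      rw [← hΔ]
      exact h8
    · intro h
      have h2 : ∀ u ∈ C.S.Op (pw X n) (pw X m), LinearMap.trace W.K (W.H (pw X m))
          (par (W.isInternal (pw X m)) ∘ₗ (g : Module.End W.K (W.H (pw X m))) ∘ₗ u ∘ₗ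
            C.rho (pw X m) (pw X n) Γ) = 0 := by
        intro u hu
        exact congrArg (fun f : C.S.Op (pw X n) (pw X m) →ₗ[W.K] W.K => f ⟨u, hu⟩) h
      have h3 : C.cl _ (C.comp (s g) Γ) ∈ C.S.Num ((pw X m).prod (pw X n)) := by
        refine ⟨C.cl_mem_S _, fun d hd => ?_⟩
        have h4 := trace_corr_corr (W := W) (C.cl _ (C.comp (s g) Γ))
          (W.map (swap (pw X n) (pw X m)) d)
        rw [swap_swap] at h4
        rw [← h4]
        have h5 : W.corr (C.cl _ (C.comp (s g) Γ)) = C.rho (pw X m) (pw X n) Γ ∘ₗ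
            (g : Module.End W.K (W.H (pw X m))) := by
          rw [← hs' g]
          exact C.rho_comp (s g) Γ
        have h6 := (Sys.Op.ev (C.rho_mem Γ)).par_comm
        have h7 := h2 _ (Sys.Op.corr (C.S.map (swap (pw X n) (pw X m)) hd))
        rw [h5, LinearMap.comp_assoc, ← LinearMap.comp_assoc _ (C.rho (pw X m) (pw X n) Γ), h6,
          LinearMap.comp_assoc, LinearMap.trace_comp_comm', ← h7]
        rfl
      have h5 := h0 m n _ (numTriv_iff.2 h3) z hz
      rw [C.act_comp] at h5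
      have h6 := hG' m n Γ _ hgz
      rw [hα, act_map_sub] at h6
      have h7 := Submodule.sub_mem _ h5 h6
      rwa [sub_sub_cancel] at h7

/-- The ranks of the intersection forms have limits, in the submonoid `M`. -/
def HasLim (S : Sys W) (X : 𝒱.Obj) (M : AddSubmonoid ℝ) : Prop :=
  ∀ (m : ℕ) (g : Module.End W.K (W.H (pw X m))), g ∈ S.Op (pw X m) (pw X m) → g ∘ₗ g = g →
    ∃ D ∈ M, Tendsto (fun n => (S.r (pw X m) g (pw X n) : ℝ) / S.a (pw X n)) atTop (𝓝 D) ∧
      (g ∈ S.NOp (pw X m) (pw X m) ∨ 1 ≤ D)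

/-- The dimensions of the quotients `G n / G' n` are asymptotic to `N` times the numerical ranks. -/
def RLim (X : 𝒱.Obj) (G' G : ∀ n, Submodule W.K (C.A (pw X n))) (N : ℝ) : Prop :=
  Tendsto (fun n => ((finrank W.K (G n) : ℝ) - finrank W.K (G' n)) / C.S.a (pw X n)) atTop (𝓝 N)

variable {C}

lemma rlim_bound {G' U G : ∀ n, Submodule W.K (C.A (pw X n))}
    (hfin : ∀ n, Module.Finite W.K (G n)) (hpos : ∀ n, 0 < C.S.a (pw X n))
    (hle : ∀ n, U n ≤ G n)
    {N : ℝ} {N₀ : ℕ} (hU : RLim C X G' U N)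
    (hf : ∃ᶠ n in atTop, finrank W.K (G n) < N₀ * C.S.a (pw X n) + finrank W.K (G' n)) :
    N ≤ N₀ := by
  by_contra hlt
  push Not at hlt
  have h2 := hU.eventually (lt_mem_nhds hlt)
  obtain ⟨n, hn1, hn2⟩ := (hf.and_eventually h2).exists
  have hp : (0 : ℝ) < C.S.a (pw X n) := by exact_mod_cast hpos n
  rw [lt_div_iff₀ hp] at hn2
  have := hfin n
  have h3 := Submodule.finrank_mono (hle n)
  have h4 : ((N₀ * C.S.a (pw X n) + finrank W.K (G' n) : ℕ) : ℝ) < (finrank W.K (U n) : ℕ) := by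
    push_cast
    linarith
  have h5 : N₀ * C.S.a (pw X n) + finrank W.K (G' n) < finrank W.K (U n) := by exact_mod_cast h4
  omega

/-- Iteration of the composition step, relative form. -/
lemma iterate_rel {G' G : ∀ n, Submodule W.K (C.A (pw X n))} {M : AddSubmonoid ℝ}
    (hfin : ∀ n, Module.Finite W.K (G n)) (hpos : ∀ n, 0 < C.S.a (pw X n))
    (hgr : HasLim C.S X M)
    (hG' : Stab C X G') (hG : Stab C X G) (hle : ∀ n, G' n ≤ G n)
    (h0 : ∀ (m n : ℕ) (Γ : C.A ((pw X m).prod (pw X n))), CycleTheory.NumTriv Γ → ∀ y ∈ G m,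
      C.act Γ y ∈ G' n) :
    (∃ N ∈ M, RLim C X G' G N ∧ (G' = G ∨ 1 ≤ N)) ∨
      ∀ N : ℕ, ∀ᶠ n in atTop, N * C.S.a (pw X n) + finrank W.K (G' n) ≤ finrank W.K (G n) := by
  classical
  by_cases hI : ∀ N : ℕ, ∀ᶠ n in atTop,
      N * C.S.a (pw X n) + finrank W.K (G' n) ≤ finrank W.K (G n)
  · exact Or.inr hI
  left
  push Not at hI
  obtain ⟨N₀, hN₀⟩ := hI
  let R : ℕ → Prop := fun j => ∃ U : ∀ n, Submodule W.K (C.A (pw X n)), Stab C X U ∧
    (∀ n, G' n ≤ U n) ∧ (∀ n, U n ≤ G n) ∧ ∃ N ∈ M, (j : ℝ) ≤ N ∧ RLim C X G' U N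
  have hR : ∀ j, R j → j ≤ N₀ := by
    rintro j ⟨U, _, _, hU, N, _, hj, hL⟩
    have := hj.trans (rlim_bound hfin hpos hU hL hN₀)
    exact_mod_cast this
  have h00 : RLim C X G' G' 0 := by
    rw [RLim]
    refine tendsto_const_nhds.congr fun n => ?_
    rw [sub_self, zero_div]
  have h1 : R 0 := ⟨G', hG', fun _ => le_rfl, hle, 0, M.zero_mem, by simp, h00⟩
  have stepR : ∀ {j : ℕ} {U : ∀ n, Submodule W.K (C.A (pw X n))}, Stab C X U →
      (∀ n, G' n ≤ U n) → (∀ n, U n ≤ G n) → (∃ N ∈ M, (j : ℝ) ≤ N ∧ RLim C X G' U N) → U ≠ G →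
        R (j + 1) := by
    rintro j U hU hU1 hU2 ⟨N, hNM, hj, hL⟩ hne
    have heq : ¬ ∀ n, ∀ y ∈ G n, y ∈ U n := fun h =>
      hne (funext fun n => le_antisymm (hU2 n) (h n))
    push Not at heq
    obtain ⟨m, y, hy, hy'⟩ := heq
    obtain ⟨g, hg, hgg, hg0, U', hS, hU'1, hU'2, hdim⟩ := step C X hfin hU hG hU2
      (fun m n Γ hΓ y hy => hU1 n (h0 m n Γ hΓ y hy)) hy hy'
    obtain ⟨D, hDM, h2, h3⟩ := hgr m g hg hgg
    replace h3 := h3.resolve_left hg0
    refine ⟨U', hS, fun n => (hU1 n).trans (hU'1 n), hU'2, N + D, M.add_mem hNM hDM, ?_, ?_⟩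
    · push_cast
      linarith
    · have h4 := hL.add h2
      rw [RLim]
      refine h4.congr fun n => ?_
      rw [hdim n]
      push_cast
      rw [← add_div]
      congr 1
      ring
  obtain ⟨U, hU, hU1, hU2, N, hNM, hj, hL⟩ := Nat.findGreatest_spec (hR _ h1) h1
  set j := Nat.findGreatest R N₀ with hN
  by_cases heq : U = G
  · refine ⟨N, hNM, heq ▸ hL, ?_⟩
    by_contra hne
    push Not at hne
    have hRN := stepR hG' (fun _ => le_rfl) hle ⟨0, M.zero_mem, (by simp : ((0 : ℕ) : ℝ) ≤ 0), h00⟩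
      hne.1
    have hj1 : 1 ≤ j := Nat.le_findGreatest (hR _ hRN) hRN
    have : (1 : ℝ) ≤ j := by exact_mod_cast hj1
    linarith [hne.2]
  · exfalso
    have hRN := stepR hU hU1 hU2 ⟨N, hNM, hj, hL⟩ heq
    exact Nat.findGreatest_is_greatest (P := R) (n := N₀) (show j < j + 1 by omega) (hR _ hRN) hRN

end Pool.Agent.V7H5.AJ
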